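import Mathlib

set_option autoImplicit false
open MeasureTheory ProbabilityTheory
open scoped ENNReal

namespace Pool.Agent.H311.Gauss

variable {ι : Type} [Fintype ι]

/-- standard Gaussian measure on `ι → ℝ` -/
noncomputable abbrev G (ι : Type) [Fintype ι] : Measure (ι → ℝ) :=
  Measure.pi fun _ : ι => gaussianReal 0 1

lemma lint_pi (f : ι → ℝ → ℝ≥0∞) (hf : ∀ i, Measurable (f i)) :
    ∫⁻ u, ∏ i, f i (u i) ∂(G ι) = ∏ i, ∫⁻ t, f i t ∂(gaussianReal 0 1) := by
  have hind : iIndepFun (fun i (u : ι → ℝ) => f i (u i)) (G ι) :=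
    iIndepFun_pi (fun i => (hf i).aemeasurable)
  rw [lintegral_prod_eq_prod_lintegral_of_indepFun Finset.univ _ hind
    (fun i => (hf i).comp (measurable_pi_apply i))]
  refine Finset.prod_congr rfl fun i _ => ?_
  exact (measurePreserving_eval (fun _ : ι => gaussianReal 0 1) i).lintegral_comp (hf i)

/-- density of a shifted Gaussian -/
noncomputable def dd (m u : ℝ) : ℝ≥0∞ := ENNReal.ofReal (Real.exp (m * u - m ^ 2 / 2))

lemma dd_meas (m : ℝ) : Measurable (dd m) := by
  unfold dd
  fun_prop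

lemma dd_dens (m : ℝ) : gaussianReal m 1 = (gaussianReal 0 1).withDensity (dd m) := by
  have h1 : (1 : NNReal) ≠ 0 := one_ne_zero
  rw [gaussianReal_of_var_ne_zero m h1, gaussianReal_of_var_ne_zero 0 h1,
    ← withDensity_mul _ (measurable_gaussianPDF 0 1) (dd_meas m)]
  congr 1
  funext u
  simp only [Pi.mul_apply, gaussianPDF, gaussianPDFReal, dd]
  rw [← ENNReal.ofReal_mul (by positivity)]
  congr 1
  have e : Real.exp (-(u - m) ^ 2 / (2 * ((1 : NNReal) : ℝ))) =
      Real.exp (-(u - 0) ^ 2 / (2 * ((1 : NNReal) : ℝ))) *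
        Real.exp (m * u - m ^ 2 / 2) := by
    rw [← Real.exp_add]
    congr 1
    simp only [NNReal.coe_one]
    ring
  rw [e]
  ring

lemma dd_pi (m : ι → ℝ) :
    Measure.pi (fun i => gaussianReal (m i) 1) = (G ι).withDensity (fun u => ∏ i, dd (m i) (u i)) := by
  classical
  refine Measure.pi_eq fun S hS => ?_
  rw [withDensity_apply _ (MeasurableSet.univ_pi hS), ← lintegral_indicator
    (MeasurableSet.univ_pi hS)]
  have e : (Set.univ.pi S).indicator (fun u : ι → ℝ => ∏ i, dd (m i) (u i)) =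
      fun u => ∏ i, (S i).indicator (dd (m i)) (u i) := by
    funext u
    by_cases hu : u ∈ Set.univ.pi S
    · rw [Set.indicator_of_mem hu]
      refine Finset.prod_congr rfl fun i _ => ?_
      rw [Set.indicator_of_mem (hu i (Set.mem_univ i))]
    · rw [Set.indicator_of_notMem hu]
      rw [Set.mem_univ_pi] at hu
      push Not at hu
      obtain ⟨i, hi⟩ := hu
      symm
      refine Finset.prod_eq_zero (Finset.mem_univ i) ?_
      rw [Set.indicator_of_notMem hi]
  rw [e, lint_pi _ (fun i => (dd_meas (m i)).indicator (hS i))]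
  refine Finset.prod_congr rfl fun i _ => ?_
  rw [lintegral_indicator (hS i), dd_dens (m i), withDensity_apply _ (hS i)]

/-- exponential tilt -/
noncomputable def tilt (m z : ι → ℝ) : ℝ := Real.exp (∑ i, (m i * z i - m i ^ 2 / 2))

lemma dd_prod (m u : ι → ℝ) : ∏ i, dd (m i) (u i) = ENNReal.ofReal (tilt m u) := by
  unfold dd tilt
  rw [← ENNReal.ofReal_prod_of_nonneg (fun i _ => (Real.exp_pos _).le), ← Real.exp_sum]

lemma map_shift (m : ι → ℝ) : (G ι).map (fun z => z + m) =
    Measure.pi (fun i => gaussianReal (m i) 1) := by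
  have h3 : ∀ i : ι, IsProbabilityMeasure
      ((gaussianReal 0 1).map (fun t => t + m i)) := fun i =>
    Measure.isProbabilityMeasure_map (by fun_prop)
  have h2 := Measure.pi_map_pi (μ := fun _ : ι => gaussianReal 0 1)
    (f := fun i (t : ℝ) => t + m i) (fun i => by fun_prop)
  have e : (fun z : ι → ℝ => z + m) = fun x i => x i + m i := rfl
  rw [e, h2]
  congr 1
  funext i
  rw [gaussianReal_map_add_const, zero_add]

theorem shift_int (m : ι → ℝ) (F : (ι → ℝ) → ℝ) (hF : Measurable F) :
    ∫ z, F (z + m) ∂(G ι) = ∫ z, tilt m z * F z ∂(G ι) := by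
  have h1 : ∫ z, F (z + m) ∂(G ι) = ∫ z, F z ∂((G ι).map (fun z => z + m)) := by
    rw [integral_map (by fun_prop) hF.aestronglyMeasurable]
  rw [h1, map_shift, dd_pi]
  have h2 : Measurable fun u : ι → ℝ => ∏ i, dd (m i) (u i) :=
    Finset.measurable_prod _ fun i _ => (dd_meas (m i)).comp (measurable_pi_apply i)
  rw [integral_withDensity_eq_integral_toReal_smul h2]
  · refine integral_congr_ae (Filter.Eventually.of_forall fun z => ?_)
    simp only [smul_eq_mul]
    rw [dd_prod, ENNReal.toReal_ofReal]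
    exact (Real.exp_pos _).le
  · refine Filter.Eventually.of_forall fun z => ?_
    rw [dd_prod]
    exact ENNReal.ofReal_lt_top

lemma exp_integrable (a : ι → ℝ) : Integrable (fun z => Real.exp (∑ i, a i * z i)) (G ι) := by
  have h := Integrable.fintype_prod (μ := fun _ : ι => gaussianReal 0 1)
    (f := fun i (t : ℝ) => Real.exp (a i * t)) (fun i => integrable_exp_mul_gaussianReal (a i))
  refine h.congr (Filter.Eventually.of_forall fun z => ?_)
  simp only [Real.exp_sum]

lemma exp_integral1 (a : ℝ) : ∫ t, Real.exp (a * t) ∂(gaussianReal 0 1) = Real.exp (a ^ 2 / 2) := by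
  have h := congrFun (mgf_fun_id_gaussianReal (μ := 0) (v := 1)) a
  simp only [mgf, NNReal.coe_one, zero_mul, zero_add, one_mul] at h
  exact h

lemma exp_integral (a : ι → ℝ) : ∫ z, Real.exp (∑ i, a i * z i) ∂(G ι) =
    Real.exp (∑ i, a i ^ 2 / 2) := by
  have h := integral_fintype_prod_eq_prod (μ := fun _ : ι => gaussianReal 0 1)
    (fun i (t : ℝ) => Real.exp (a i * t))
  simp only [exp_integral1] at h
  rw [Real.exp_sum, ← h]
  refine integral_congr_ae (Filter.Eventually.of_forall fun z => ?_)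
  simp only [Real.exp_sum]

lemma tilt_eq (m z : ι → ℝ) : tilt m z = Real.exp (-∑ i, m i ^ 2 / 2) *
    Real.exp (∑ i, m i * z i) := by
  unfold tilt
  rw [← Real.exp_add, Finset.sum_sub_distrib]
  congr 1
  ring

lemma tilt_mul (m m' z : ι → ℝ) : tilt m z * tilt m' z =
    Real.exp (-∑ i, (m i ^ 2 / 2 + m' i ^ 2 / 2)) * Real.exp (∑ i, (m i + m' i) * z i) := by
  unfold tilt
  rw [← Real.exp_add, ← Real.exp_add, ← Finset.sum_add_distrib, ← Finset.sum_neg_distrib,
    ← Finset.sum_add_distrib]
  congr 1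
  refine Finset.sum_congr rfl fun i _ => ?_
  ring

lemma tilt_integrable (m : ι → ℝ) : Integrable (tilt m) (G ι) := by
  have h := (exp_integrable m).const_mul (Real.exp (-∑ i, m i ^ 2 / 2))
  refine h.congr (Filter.Eventually.of_forall fun z => ?_)
  exact (tilt_eq m z).symm

lemma tilt_integral (m : ι → ℝ) : ∫ z, tilt m z ∂(G ι) = 1 := by
  have e : ∀ z, tilt m z = Real.exp (-∑ i, m i ^ 2 / 2) * Real.exp (∑ i, m i * z i) :=
    tilt_eq m
  simp only [e]
  rw [integral_const_mul, exp_integral, ← Real.exp_add]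
  simp

lemma tilt_mul_integrable (m m' : ι → ℝ) : Integrable (fun z => tilt m z * tilt m' z) (G ι) := by
  have h := (exp_integrable (fun i => m i + m' i)).const_mul
    (Real.exp (-∑ i, (m i ^ 2 / 2 + m' i ^ 2 / 2)))
  refine h.congr (Filter.Eventually.of_forall fun z => ?_)
  exact (tilt_mul m m' z).symm

lemma tilt_mul_integral (m m' : ι → ℝ) : ∫ z, tilt m z * tilt m' z ∂(G ι) =
    Real.exp (∑ i, m i * m' i) := by
  simp only [tilt_mul]
  rw [integral_const_mul, exp_integral, ← Real.exp_add, ← Finset.sum_neg_distrib,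
    ← Finset.sum_add_distrib]
  congr 1
  refine Finset.sum_congr rfl fun i _ => ?_
  ring

end Pool.Agent.H311.Gauss
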