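import Pool.Agent.H311.GaussA
import Pool.Agent.H4R2.AE.Conc

set_option autoImplicit false
open MeasureTheory ProbabilityTheory
open scoped ENNReal

namespace Pool.Agent.H311.Gauss

variable {ι : Type} [Fintype ι]

/-- second moment method: a mixture of shifts with bounded second moment hardly changes the
expectation of a function with small variance -/
theorem chi2 {X : Type} [Fintype X] [Nonempty X] (m : X → ι → ℝ) (K : ℝ)
    (hK : ∑ x, ∑ y, Real.exp (∑ i, m x i * m y i) ≤ K * (Fintype.card X : ℝ) ^ 2)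
    (F : (ι → ℝ) → ℝ) (hF : Measurable F) (B : ℝ) (hB : ∀ z, |F z| ≤ B) (W : ℝ)
    (hW : ∫ z, F z ^ 2 ∂(G ι) - (∫ z, F z ∂(G ι)) ^ 2 ≤ W) (t : ℝ) (ht : 0 < t) :
    (∑ x, ∫ z, F (z + m x) ∂(G ι)) / (Fintype.card X : ℝ) - ∫ z, F z ∂(G ι) ≤
      t * W / 2 + (K - 1) / (2 * t) := by
  have hc : (0 : ℝ) < Fintype.card X := by exact_mod_cast Fintype.card_pos
  have hc0 : (Fintype.card X : ℝ) ≠ 0 := hc.ne'
  obtain ⟨L, hL⟩ : ∃ L : (ι → ℝ) → ℝ, L = fun z => (∑ x, tilt (m x) z) / (Fintype.card X : ℝ) :=
    ⟨_, rfl⟩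
  have tm : ∀ x, Measurable (tilt (m x)) := fun x => by unfold tilt; fun_prop
  have Lm : Measurable L := by
    rw [hL]
    exact (Finset.measurable_sum _ fun x _ => tm x).div_const _
  have Li : Integrable L (G ι) := by
    rw [hL]
    exact (integrable_finsetSum _ fun x _ => tilt_integrable (m x)).div_const _
  have Lint : ∫ z, L z ∂(G ι) = 1 := by
    rw [hL]
    rw [integral_div, integral_finsetSum _ fun x _ => tilt_integrable (m x)]
    simp only [tilt_integral]
    rw [Finset.sum_const, Finset.card_univ, nsmul_eq_mul, mul_one, div_self hc0]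
  have L2e : ∀ z, L z ^ 2 = (∑ x, ∑ y, tilt (m x) z * tilt (m y) z) / (Fintype.card X : ℝ) ^ 2 := by
    intro z
    rw [hL]
    simp only
    rw [div_pow, sq (∑ x, tilt (m x) z), Finset.sum_mul_sum]
  have L2i : Integrable (fun z => L z ^ 2) (G ι) := by
    simp only [L2e]
    refine Integrable.div_const ?_ _
    exact integrable_finsetSum _ fun x _ => integrable_finsetSum _ fun y _ =>
      tilt_mul_integrable (m x) (m y)
  have L2int : ∫ z, L z ^ 2 ∂(G ι) ≤ K := by
    simp only [L2e]
    rw [integral_div, integral_finsetSum _ fun x _ => integrable_finsetSum _ fun y _ =>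
      tilt_mul_integrable (m x) (m y)]
    have e : ∀ x, ∫ z, ∑ y, tilt (m x) z * tilt (m y) z ∂(G ι) =
        ∑ y, Real.exp (∑ i, m x i * m y i) := by
      intro x
      rw [integral_finsetSum _ fun y _ => tilt_mul_integrable (m x) (m y)]
      simp only [tilt_mul_integral]
    simp only [e]
    rw [div_le_iff₀ (by positivity)]
    exact hK
  have LF : (∑ x, ∫ z, F (z + m x) ∂(G ι)) / (Fintype.card X : ℝ) = ∫ z, L z * F z ∂(G ι) := by
    have h1 : ∀ x, Integrable (fun z => tilt (m x) z * F z) (G ι) := fun x =>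
      (tilt_integrable (m x)).mul_bdd hF.aestronglyMeasurable
        (Filter.Eventually.of_forall fun z => by rw [Real.norm_eq_abs]; exact hB z)
    have e : ∀ z, L z * F z = (∑ x, tilt (m x) z * F z) / (Fintype.card X : ℝ) := by
      intro z
      rw [hL]
      simp only
      rw [← Finset.sum_mul]
      ring
    simp only [e]
    rw [integral_div, integral_finsetSum _ fun x _ => h1 x]
    congr 1
    exact Finset.sum_congr rfl fun x _ => shift_int (m x) F hF
  have LFi : Integrable (fun z => L z * F z) (G ι) := Li.mul_bdd hF.aestronglyMeasurable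
        (Filter.Eventually.of_forall fun z => by rw [Real.norm_eq_abs]; exact hB z)
  have Fi : Integrable F (G ι) := Integrable.of_bound hF.aestronglyMeasurable B
    (Filter.Eventually.of_forall fun z => by rw [Real.norm_eq_abs]; exact hB z)
  have F2i : Integrable (fun z => F z ^ 2) (G ι) :=
    Integrable.of_bound (hF.pow_const 2).aestronglyMeasurable (B ^ 2)
    (Filter.Eventually.of_forall fun z => by
      rw [Real.norm_eq_abs, abs_pow]
      exact pow_le_pow_left₀ (abs_nonneg _) (hB z) 2)
  set c := ∫ z, F z ∂(G ι) with hcdef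
  rw [LF]
  have key : ∀ z, L z * F z - F z - c * L z + c ≤
      t * (F z ^ 2 - 2 * c * F z + c ^ 2) / 2 + (L z ^ 2 - 2 * L z + 1) / (2 * t) := by
    intro z
    have h2 : t * (F z ^ 2 - 2 * c * F z + c ^ 2) / 2 + (L z ^ 2 - 2 * L z + 1) / (2 * t) -
        (L z * F z - F z - c * L z + c) =
        (t * (F z - c) - (L z - 1)) ^ 2 / (2 * t) := by
      field_simp
      ring
    have h3 : 0 ≤ (t * (F z - c) - (L z - 1)) ^ 2 / (2 * t) := by positivity
    linarith
  have I1 : Integrable (fun z => L z * F z - F z) (G ι) := LFi.sub Fi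
  have I2 : Integrable (fun z => L z * F z - F z - c * L z) (G ι) := I1.sub (Li.const_mul c)
  have I3 : Integrable (fun z => L z * F z - F z - c * L z + c) (G ι) :=
    I2.add (integrable_const c)
  have J1 : Integrable (fun z => F z ^ 2 - 2 * c * F z) (G ι) := F2i.sub (Fi.const_mul (2 * c))
  have J2 : Integrable (fun z => F z ^ 2 - 2 * c * F z + c ^ 2) (G ι) :=
    J1.add (integrable_const (c ^ 2))
  have J3 : Integrable (fun z => t * (F z ^ 2 - 2 * c * F z + c ^ 2) / 2) (G ι) :=
    (J2.const_mul t).div_const 2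
  have J4 : Integrable (fun z => L z ^ 2 - 2 * L z) (G ι) := L2i.sub (Li.const_mul 2)
  have J5 : Integrable (fun z => L z ^ 2 - 2 * L z + 1) (G ι) := J4.add (integrable_const 1)
  have J6 : Integrable (fun z => (L z ^ 2 - 2 * L z + 1) / (2 * t)) (G ι) :=
    J5.div_const (2 * t)
  have J7 : Integrable (fun z => t * (F z ^ 2 - 2 * c * F z + c ^ 2) / 2 +
      (L z ^ 2 - 2 * L z + 1) / (2 * t)) (G ι) := J3.add J6
  have hint := integral_mono (μ := G ι) I3 J7 key
  have e1 : ∫ z, (L z * F z - F z - c * L z + c) ∂(G ι) = ∫ z, L z * F z ∂(G ι) - c := by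
    rw [integral_add I2 (integrable_const c), integral_sub I1 (Li.const_mul c),
      integral_sub LFi Fi, integral_const_mul, Lint, ← hcdef, integral_const]
    simp
  have e2 : ∫ z, (t * (F z ^ 2 - 2 * c * F z + c ^ 2) / 2 +
      (L z ^ 2 - 2 * L z + 1) / (2 * t)) ∂(G ι) =
      t * (∫ z, F z ^ 2 ∂(G ι) - c ^ 2) / 2 + (∫ z, L z ^ 2 ∂(G ι) - 1) / (2 * t) := by
    rw [integral_add J3 J6, integral_div, integral_div, integral_const_mul,
      integral_add J1 (integrable_const (c ^ 2)),
      integral_sub F2i (Fi.const_mul (2 * c)), integral_const_mul,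
      integral_add J4 (integrable_const 1),
      integral_sub L2i (Li.const_mul 2), integral_const_mul, Lint, ← hcdef,
      integral_const, integral_const]
    simp only [probReal_univ, smul_eq_mul]
    ring
  rw [e1, e2] at hint
  refine hint.trans ?_
  have h5 : t * (∫ z, F z ^ 2 ∂(G ι) - c ^ 2) / 2 ≤ t * W / 2 := by
    gcongr
  have h6 : (∫ z, L z ^ 2 ∂(G ι) - 1) / (2 * t) ≤ (K - 1) / (2 * t) := by
    gcongr
  linarith

end Pool.Agent.H311.Gauss
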