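import Pool.Agent.H311.KikB

set_option autoImplicit false
open Matrix Finset

namespace Pool.Agent.H311.Kik

variable {n : ℕ}

lemma quad_cont {r ℓ : ℕ} (Z : Finset (Fin n) → ℝ) :
    Continuous fun v : V n ℓ → ℝ => dotProduct v ((A r ℓ Z) *ᵥ v) := by
  simp only [dotProduct, mulVec]
  fun_prop

lemma sphere_compact {ℓ : ℕ} : IsCompact {v : V n ℓ → ℝ | dotProduct v v = 1} := by
  apply Metric.isCompact_of_isClosed_isBounded
  · apply isClosed_eq
    · simp only [dotProduct]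
      fun_prop
    · exact continuous_const
  · refine (Metric.isBounded_closedBall (x := (0 : V n ℓ → ℝ)) (r := 1)).subset ?_
    intro v hv
    rw [mem_closedBall_zero_iff, pi_norm_le_iff_of_nonneg zero_le_one]
    intro i
    rw [Real.norm_eq_abs]
    apply abs_le_of_sq_le_sq _ zero_le_one
    have h : ∑ i, v i * v i = 1 := hv
    have h1 : v i * v i ≤ ∑ i, v i * v i :=
      Finset.single_le_sum (f := fun i => v i * v i) (fun i _ => mul_self_nonneg _)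
        (Finset.mem_univ i)
    nlinarith

lemma sphere_nonempty {ℓ : ℕ} [Nonempty (V n ℓ)] :
    {v : V n ℓ → ℝ | dotProduct v v = 1}.Nonempty := by
  classical
  obtain ⟨I⟩ := (inferInstance : Nonempty (V n ℓ))
  refine ⟨Pi.single I 1, ?_⟩
  simp

lemma exists_max {r ℓ : ℕ} [Nonempty (V n ℓ)] (Z : Finset (Fin n) → ℝ) :
    ∃ v : V n ℓ → ℝ, dotProduct v v = 1 ∧ f r ℓ Z = dotProduct v ((A r ℓ Z) *ᵥ v) ∧
      ∀ u : V n ℓ → ℝ, dotProduct u u = 1 → dotProduct u ((A r ℓ Z) *ᵥ u) ≤ f r ℓ Z := by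
  obtain ⟨v, hv, hmax⟩ := sphere_compact.exists_isMaxOn (sphere_nonempty (n := n) (ℓ := ℓ))
    (quad_cont (r := r) Z).continuousOn
  have h1 : ∀ u : V n ℓ → ℝ, dotProduct u u = 1 →
      dotProduct u ((A r ℓ Z) *ᵥ u) ≤ dotProduct v ((A r ℓ Z) *ᵥ v) := fun u hu => hmax hu
  have h2 : f r ℓ Z = dotProduct v ((A r ℓ Z) *ᵥ v) := by
    apply le_antisymm
    · apply csSup_le
      · exact ⟨_, v, hv, rfl⟩
      · rintro t ⟨u, hu, rfl⟩
        exact h1 u hu
    · apply le_csSup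
      · refine ⟨dotProduct v ((A r ℓ Z) *ᵥ v), ?_⟩
        rintro t ⟨u, hu, rfl⟩
        exact h1 u hu
      · exact ⟨v, hv, rfl⟩
  exact ⟨v, hv, h2, fun u hu => by rw [h2]; exact h1 u hu⟩

lemma f_sub_le {ℓ : ℕ} [Nonempty (V n ℓ)] (Z : Finset (Fin n) → ℝ) :
    ∃ v : V n ℓ → ℝ, dotProduct v v = 1 ∧ ∀ W : Finset (Fin n) → ℝ,
      f 2 ℓ Z - f 2 ℓ W ≤ ∑ S, (Z S - W S) * g 2 (ext v) S := by
  obtain ⟨v, hv, h1, -⟩ := exists_max (r := 2) (ℓ := ℓ) Z
  refine ⟨v, hv, fun W => ?_⟩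
  obtain ⟨-, -, -, h2⟩ := exists_max (r := 2) (ℓ := ℓ) W
  have h3 := h2 v hv
  rw [quad] at h1 h3
  simp only [sub_mul, Finset.sum_sub_distrib]
  linarith

lemma f_lip {ℓ : ℕ} [Nonempty (V n ℓ)] (Z W : Finset (Fin n) → ℝ) :
    |f 2 ℓ Z - f 2 ℓ W| ≤ 2 * ℓ * ∑ S, |Z S - W S| := by
  have key : ∀ Z W : Finset (Fin n) → ℝ, f 2 ℓ Z - f 2 ℓ W ≤ 2 * ℓ * ∑ S, |Z S - W S| := by
    intro Z W
    obtain ⟨v, hv, h⟩ := f_sub_le (ℓ := ℓ) Z
    refine (h W).trans ?_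
    rw [Finset.mul_sum]
    refine Finset.sum_le_sum fun S _ => ?_
    calc (Z S - W S) * g 2 (ext v) S ≤ |(Z S - W S) * g 2 (ext v) S| := le_abs_self _
      _ = |Z S - W S| * |g 2 (ext v) S| := abs_mul _ _
      _ ≤ |Z S - W S| * (2 * ℓ) := by
          gcongr
          exact abs_g_le v hv S
      _ = 2 * ℓ * |Z S - W S| := by ring
  rw [abs_le]
  constructor
  · have := key W Z
    have e : ∑ S, |W S - Z S| = ∑ S, |Z S - W S| :=
      Finset.sum_congr rfl fun S _ => abs_sub_comm _ _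
    rw [e] at this
    linarith
  · exact key Z W

lemma f_cont {ℓ : ℕ} [Nonempty (V n ℓ)] : Continuous (f (n := n) 2 ℓ) := by
  rw [continuous_iff_continuousAt]
  intro Z
  rw [ContinuousAt, tendsto_iff_norm_sub_tendsto_zero]
  have h : Continuous fun W : Finset (Fin n) → ℝ => 2 * (ℓ : ℝ) * ∑ S, |W S - Z S| := by
    fun_prop
  have h0 := h.tendsto Z
  simp only [sub_self, abs_zero, Finset.sum_const_zero, mul_zero] at h0
  refine squeeze_zero (fun W => norm_nonneg _) (fun W => ?_) h0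
  rw [Real.norm_eq_abs]
  exact f_lip W Z

lemma f_zero {ℓ : ℕ} [Nonempty (V n ℓ)] : f (n := n) 2 ℓ (fun _ => 0) = 0 := by
  obtain ⟨v, hv, h1, -⟩ := exists_max (r := 2) (ℓ := ℓ) (fun _ : Finset (Fin n) => (0 : ℝ))
  rw [h1, quad]
  simp

lemma f_abs_le {ℓ : ℕ} [Nonempty (V n ℓ)] (Z : Finset (Fin n) → ℝ) :
    |f 2 ℓ Z| ≤ 2 * ℓ * ∑ S, |Z S| := by
  have h := f_lip (ℓ := ℓ) Z (fun _ => 0)
  rw [f_zero] at h
  simpa using h

/-- dependence only on two-element sets -/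
lemma f_congr {ℓ : ℕ} (Z W : Finset (Fin n) → ℝ) (h : ∀ S, S.card = 2 → Z S = W S) :
    f 2 ℓ Z = f 2 ℓ W := by
  unfold f
  have : A 2 ℓ Z = A 2 ℓ W := by
    ext I J
    simp only [A, Matrix.of_apply]
    split_ifs with h1
    · exact h _ h1
    · rfl
  rw [this]

/-- the character of a sign vector -/
def chi (x : Fin n → ℝ) (S : Finset (Fin n)) : ℝ := ∏ i ∈ S, x i

lemma chi_symm (x : Fin n → ℝ) (hx : ∀ i, x i * x i = 1) (S T : Finset (Fin n)) :
    chi x (symmDiff S T) = chi x S * chi x T := by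
  classical
  unfold chi
  have h1 : symmDiff S T = (S \ T) ∪ (T \ S) := rfl
  rw [h1, Finset.prod_union (by
    rw [Finset.disjoint_left]
    intro a ha hb
    simp only [Finset.mem_sdiff] at ha hb
    exact ha.2 hb.1)]
  have h2 : ∏ i ∈ S, x i = (∏ i ∈ S \ T, x i) * ∏ i ∈ S ∩ T, x i := by
    rw [← Finset.prod_union (Finset.disjoint_sdiff_inter S T), Finset.sdiff_union_inter]
  have h3 : ∏ i ∈ T, x i = (∏ i ∈ T \ S, x i) * ∏ i ∈ S ∩ T, x i := by
    rw [Finset.inter_comm S T, ← Finset.prod_union (Finset.disjoint_sdiff_inter T S),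
      Finset.sdiff_union_inter]
  have h4 : (∏ i ∈ S ∩ T, x i) * ∏ i ∈ S ∩ T, x i = 1 := by
    rw [← Finset.prod_mul_distrib]
    exact Finset.prod_eq_one fun i _ => hx i
  rw [h2, h3]
  linear_combination (-(∏ i ∈ S \ T, x i) * ∏ i ∈ T \ S, x i) * h4

lemma chi_sq (x : Fin n → ℝ) (hx : ∀ i, x i * x i = 1) (S : Finset (Fin n)) :
    chi x S * chi x S = 1 := by
  unfold chi
  rw [← Finset.prod_mul_distrib]
  exact Finset.prod_eq_one fun i _ => hx i

lemma f_flip_le {ℓ : ℕ} [Nonempty (V n ℓ)] (x : Fin n → ℝ) (hx : ∀ i, x i * x i = 1)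
    (Z : Finset (Fin n) → ℝ) : f 2 ℓ (fun S => chi x S * Z S) ≤ f 2 ℓ Z := by
  obtain ⟨v, hv, h1, -⟩ := exists_max (r := 2) (ℓ := ℓ) (fun S => chi x S * Z S)
  obtain ⟨-, -, -, h2⟩ := exists_max (r := 2) (ℓ := ℓ) Z
  rw [h1]
  have h3 := h2 (fun I => chi x I.1 * v I) (by
    rw [← hv]
    simp only [dotProduct]
    refine Finset.sum_congr rfl fun I _ => ?_
    linear_combination (v I * v I) * chi_sq x hx I.1)
  refine le_trans (le_of_eq ?_) h3
  simp only [dotProduct, mulVec, A, Matrix.of_apply]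
  refine Finset.sum_congr rfl fun I _ => ?_
  rw [mul_comm (chi x I.1) (v I), mul_assoc]
  congr 1
  rw [Finset.mul_sum]
  refine Finset.sum_congr rfl fun J _ => ?_
  split_ifs with h
  · rw [chi_symm x hx]
    ring
  · ring

lemma f_flip {ℓ : ℕ} [Nonempty (V n ℓ)] (x : Fin n → ℝ) (hx : ∀ i, x i * x i = 1)
    (Z : Finset (Fin n) → ℝ) : f 2 ℓ (fun S => chi x S * Z S) = f 2 ℓ Z := by
  apply le_antisymm (f_flip_le x hx Z)
  have h := f_flip_le (ℓ := ℓ) x hx (fun S => chi x S * Z S)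
  have e : (fun S => chi x S * (chi x S * Z S)) = Z := by
    funext S
    rw [← mul_assoc, chi_sq x hx, one_mul]
  rw [e] at h
  exact h

end Pool.Agent.H311.Kik
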