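import Pool.Agent.H311.GaussB
import Pool.Agent.H311.KikC

set_option autoImplicit false
open MeasureTheory ProbabilityTheory
open scoped ENNReal
open Pool.Agent.H4R2.AE.Conc

namespace Pool.Agent.H311.Gauss

section
variable {ι : Type} [Fintype ι] [DecidableEq ι]

theorem es_pos (F : (ι → ℝ) → ℝ) (hF : Measurable F) (B : ℝ) (hB : ∀ z, |F z| ≤ B) :
    ∫ z, F z ^ 2 ∂(G ι) - (∫ z, F z ∂(G ι)) ^ 2 ≤
      ∑ j, ∫ θ, (max (F (sel ∅ θ) - F (sel {j} θ)) 0) ^ 2 ∂(QQ ι (gaussianReal 0 1)) := by
  refine (efron (μ := gaussianReal 0 1) F hF B hB).trans ?_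
  rw [Finset.mul_sum]
  refine Finset.sum_le_sum fun j _ => ?_
  have gm : ∀ S : Finset ι, Measurable fun θ => F (sel S θ) := fun S => hF.comp (meas_sel S)
  have hsq : ∀ S T : Finset ι, Integrable (fun θ => (max (F (sel S θ) - F (sel T θ)) 0) ^ 2)
      (QQ ι (gaussianReal 0 1)) := by
    intro S T
    refine Integrable.of_bound ((((gm S).sub (gm T)).max measurable_const).pow_const 2).aestronglyMeasurable
      ((2 * B) ^ 2) (Filter.Eventually.of_forall fun θ => ?_)
    rw [Real.norm_eq_abs, abs_pow]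
    refine pow_le_pow_left₀ (abs_nonneg _) ?_ 2
    have h1 := abs_le.1 (hB (sel S θ))
    have h2 := abs_le.1 (hB (sel T θ))
    rw [abs_of_nonneg (le_max_right _ _)]
    apply max_le <;> linarith
  have e1 : Inf2 (gaussianReal 0 1) F j =
      ∫ θ, (max (F (sel ∅ θ) - F (sel {j} θ)) 0) ^ 2 ∂(QQ ι (gaussianReal 0 1)) +
      ∫ θ, (max (F (sel {j} θ) - F (sel ∅ θ)) 0) ^ 2 ∂(QQ ι (gaussianReal 0 1)) := by
    rw [← integral_add (hsq _ _) (hsq _ _)]
    unfold Inf2
    refine integral_congr_ae (Filter.Eventually.of_forall fun θ => ?_)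
    simp only
    rcases le_total (F (sel ∅ θ)) (F (sel {j} θ)) with h | h
    · rw [max_eq_right (by linarith), max_eq_left (by linarith)]
      ring
    · rw [max_eq_left (by linarith), max_eq_right (by linarith)]
      ring
  have e2 : ∫ θ, (max (F (sel {j} θ) - F (sel ∅ θ)) 0) ^ 2 ∂(QQ ι (gaussianReal 0 1)) =
      ∫ θ, (max (F (sel ∅ θ) - F (sel {j} θ)) 0) ^ 2 ∂(QQ ι (gaussianReal 0 1)) := by
    rw [← int_mp (mp_sw (gaussianReal 0 1) {j})
      (g := fun θ => (max (F (sel {j} θ) - F (sel ∅ θ)) 0) ^ 2)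
      ((((gm {j}).sub (gm ∅)).max measurable_const).pow_const 2)]
    refine integral_congr_ae (Filter.Eventually.of_forall fun θ => ?_)
    have h1 : sel ∅ (sw {j} θ) = sel {j} θ := sel_empty_sw {j} θ
    have h2 : sel {j} (sw {j} θ) = sel ∅ θ := by
      have := sel_insert_sw_single (S := (∅ : Finset ι)) (j := j) (by simp) θ
      simpa using this
    simp only [h1, h2]
  rw [e1, e2]
  linarith
end

/-- eighth moment of the difference of two standard Gaussians -/
noncomputable def C8 : ℝ := ∫ x : ℝ × ℝ, (x.1 - x.2) ^ 8 ∂((gaussianReal 0 1).prod (gaussianReal 0 1))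

lemma C8_nonneg : 0 ≤ C8 := by
  unfold C8
  refine integral_nonneg fun x => ?_
  positivity

lemma int8 : Integrable (fun x : ℝ × ℝ => (x.1 - x.2) ^ 8)
    ((gaussianReal 0 1).prod (gaussianReal 0 1)) := by
  have h1 : MemLp (fun x : ℝ × ℝ => x.1) 8 ((gaussianReal 0 1).prod (gaussianReal 0 1)) :=
    (memLp_id_gaussianReal (μ := 0) (v := 1) 8).comp_measurePreserving measurePreserving_fst
  have h2 : MemLp (fun x : ℝ × ℝ => x.2) 8 ((gaussianReal 0 1).prod (gaussianReal 0 1)) :=
    (memLp_id_gaussianReal (μ := 0) (v := 1) 8).comp_measurePreserving measurePreserving_snd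
  have h3 := (h1.sub h2).integrable_norm_pow (p := 8) (by norm_num)
  refine h3.congr (Filter.Eventually.of_forall fun x => ?_)
  simp only [Pi.sub_apply, Real.norm_eq_abs]
  rw [← abs_pow, abs_of_nonneg (by positivity)]

lemma sq_le_trick {x a : ℝ} (hx : 0 ≤ x) (ha : 0 < a) : x ≤ a + x ^ 4 / a ^ 3 := by
  have h1 : a ^ 3 * x ≤ a ^ 4 + x ^ 4 := by
    rcases le_total x a with h | h
    · have : a ^ 3 * x ≤ a ^ 3 * a := by gcongr
      have h4 : 0 ≤ x ^ 4 := by positivity
      nlinarith
    · have : a ^ 3 * x ≤ x ^ 3 * x := by gcongr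
      have h4 : 0 ≤ a ^ 4 := by positivity
      nlinarith
  have h2 : a + x ^ 4 / a ^ 3 = (a ^ 4 + x ^ 4) / a ^ 3 := by
    field_simp
  rw [h2, le_div_iff₀ (by positivity)]
  linarith

open Pool.Agent.H311.Kik

variable {n : ℕ}

/-- truncation -/
noncomputable def clamp (B x : ℝ) : ℝ := max (-B) (min x B)

lemma clamp_abs {B : ℝ} (hB : 0 ≤ B) (x : ℝ) : |clamp B x| ≤ B := by
  unfold clamp
  rw [abs_le]
  constructor
  · exact le_max_left _ _
  · exact max_le (by linarith) (min_le_right _ _)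

lemma clamp_le_abs {B : ℝ} (hB : 0 ≤ B) (x : ℝ) : |clamp B x| ≤ |x| := by
  unfold clamp
  rcases le_total x B with h1 | h1
  · rw [min_eq_left h1]
    rcases le_total (-B) x with h2 | h2
    · rw [max_eq_right h2]
    · rw [max_eq_left h2, abs_neg, abs_of_nonneg hB, abs_of_nonpos (by linarith)]
      linarith
  · rw [min_eq_right h1, max_eq_right (by linarith), abs_of_nonneg hB]
    exact h1.trans (le_abs_self x)

lemma clamp_eq {B x : ℝ} (h : |x| ≤ B) : clamp B x = x := by
  have := abs_le.1 h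
  unfold clamp
  rw [min_eq_left this.2, max_eq_right this.1]

lemma clamp_sub {B : ℝ} (x y : ℝ) : max (clamp B x - clamp B y) 0 ≤ max (x - y) 0 := by
  unfold clamp
  rcases le_total x y with h | h
  · have : max (-B) (min x B) ≤ max (-B) (min y B) :=
      max_le_max le_rfl (min_le_min h le_rfl)
    rw [max_eq_right (by linarith)]
    exact le_max_right _ _
  · rw [max_eq_left (a := x - y) (by linarith)]
    apply max_le _ (by linarith)
    have h1 : min x B ≤ min y B + (x - y) := by
      rcases le_total y B with h2 | h2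
      · rw [min_eq_left h2]
        linarith [min_le_left x B]
      · rw [min_eq_right h2]
        linarith [min_le_right x B]
    have h3 : max (-B) (min x B) ≤ max (-B) (min y B) + (x - y) := by
      apply max_le
      · linarith [le_max_left (-B) (min y B)]
      · linarith [le_max_right (-B) (min y B)]
    linarith

lemma clamp_cont (B : ℝ) : Continuous (clamp B) := by
  unfold clamp
  fun_prop

/-- number of pairs -/
noncomputable def N2 (n : ℕ) : ℝ := ((Finset.univ.filter fun S : Finset (Fin n) => S.card = 2).card : ℝ)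

lemma pt_bound {ℓ : ℕ} [Nonempty (V n ℓ)] (B a : ℝ) (ha : 0 < a)
    (θ : Finset (Fin n) → ℝ × ℝ) :
    ∑ j, (max (clamp B (f 2 ℓ (sel ∅ θ)) - clamp B (f 2 ℓ (sel {j} θ))) 0) ^ 2 ≤
      4 * (ℓ : ℝ) ^ 2 * (a + (∑ S, if S.card = 2 then ((θ S).1 - (θ S).2) ^ 8 else 0) / a ^ 3) := by
  obtain ⟨v, hv, h⟩ := f_sub_le (ℓ := ℓ) (sel ∅ θ)
  set m : ℝ := a + (∑ S, if S.card = 2 then ((θ S).1 - (θ S).2) ^ 8 else 0) / a ^ 3 with hm
  have hm0 : 0 ≤ m := by
    rw [hm]
    have : 0 ≤ ∑ S : Finset (Fin n), (if S.card = 2 then ((θ S).1 - (θ S).2) ^ 8 else 0) := by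
      refine Finset.sum_nonneg fun S _ => ?_
      split_ifs
      · positivity
      · exact le_rfl
    positivity
  have key : ∀ j, (max (clamp B (f 2 ℓ (sel ∅ θ)) - clamp B (f 2 ℓ (sel {j} θ))) 0) ^ 2 ≤
      m * g 2 (ext v) j ^ 2 := by
    intro j
    have h1 := clamp_sub (B := B) (f 2 ℓ (sel ∅ θ)) (f 2 ℓ (sel {j} θ))
    have h2 : max (f 2 ℓ (sel ∅ θ) - f 2 ℓ (sel {j} θ)) 0 ≤
        |(θ j).1 - (θ j).2| * |g 2 (ext v) j| := by
      apply max_le _ (by positivity)
      refine (h (sel {j} θ)).trans ?_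
      rw [← abs_mul]
      refine le_trans (le_of_eq ?_) (le_abs_self _)
      rw [Finset.sum_eq_single j]
      · simp [sel]
      · intro S _ hS
        simp [sel, hS]
      · simp
    have h3 : (max (clamp B (f 2 ℓ (sel ∅ θ)) - clamp B (f 2 ℓ (sel {j} θ))) 0) ^ 2 ≤
        (|(θ j).1 - (θ j).2| * |g 2 (ext v) j|) ^ 2 :=
      pow_le_pow_left₀ (le_max_right _ _) (h1.trans h2) 2
    refine h3.trans ?_
    rw [mul_pow, sq_abs, sq_abs]
    by_cases hj : j.card = 2
    · apply mul_le_mul_of_nonneg_right _ (sq_nonneg _)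
      have h4 := sq_le_trick (sq_nonneg ((θ j).1 - (θ j).2)) ha
      rw [hm]
      refine h4.trans ?_
      have h5 : ((θ j).1 - (θ j).2) ^ 8 ≤
          ∑ S, if S.card = 2 then ((θ S).1 - (θ S).2) ^ 8 else 0 := by
        refine le_trans (le_of_eq ?_) (Finset.single_le_sum
          (f := fun S : Finset (Fin n) => if S.card = 2 then ((θ S).1 - (θ S).2) ^ 8 else 0)
          (fun S _ => ?_) (Finset.mem_univ j))
        · simp [hj]
        · split_ifs
          · positivity
          · exact le_rfl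
      have e8 : (((θ j).1 - (θ j).2) ^ 2) ^ 4 = ((θ j).1 - (θ j).2) ^ 8 := by ring
      rw [e8]
      gcongr
    · have : g 2 (ext v) j = 0 := by simp [g, hj]
      rw [this]
      simp
  calc ∑ j, (max (clamp B (f 2 ℓ (sel ∅ θ)) - clamp B (f 2 ℓ (sel {j} θ))) 0) ^ 2
      ≤ ∑ j, m * g 2 (ext v) j ^ 2 := Finset.sum_le_sum fun j _ => key j
    _ = m * ∑ j, g 2 (ext v) j ^ 2 := by rw [Finset.mul_sum]
    _ ≤ m * (4 * (ℓ : ℝ) ^ 2) := by
        gcongr
        exact sum_g_sq_unit v hv
    _ = 4 * (ℓ : ℝ) ^ 2 * m := by ring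

lemma var_bound {ℓ : ℕ} [Nonempty (V n ℓ)] (B a : ℝ) (hB : 0 ≤ B) (ha : 0 < a) :
    ∫ z, clamp B (f 2 ℓ z) ^ 2 ∂(G (Finset (Fin n))) -
      (∫ z, clamp B (f 2 ℓ z) ∂(G (Finset (Fin n)))) ^ 2 ≤
      4 * (ℓ : ℝ) ^ 2 * (a + N2 n * C8 / a ^ 3) := by
  have hFm : Measurable fun z : Finset (Fin n) → ℝ => clamp B (f 2 ℓ z) :=
    ((clamp_cont B).comp f_cont).measurable
  refine (es_pos _ hFm B (fun z => clamp_abs hB _)).trans ?_
  have gm : ∀ S : Finset (Finset (Fin n)), Measurable fun θ => clamp B (f 2 ℓ (sel S θ)) :=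
    fun S => hFm.comp (meas_sel S)
  rw [← integral_finsetSum]
  · have h1 : ∀ S : Finset (Fin n), Integrable (fun θ : Finset (Fin n) → ℝ × ℝ =>
        (if S.card = 2 then ((θ S).1 - (θ S).2) ^ 8 else 0))
        (QQ (Finset (Fin n)) (gaussianReal 0 1)) := by
      intro S
      split_ifs
      · exact (measurePreserving_eval (fun _ : Finset (Fin n) =>
          (gaussianReal 0 1).prod (gaussianReal 0 1)) S).integrable_comp_of_integrable int8
      · exact integrable_zero _ _ _
    have h2 : Integrable (fun θ : Finset (Fin n) → ℝ × ℝ =>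
        4 * (ℓ : ℝ) ^ 2 * (a + (∑ S, if S.card = 2 then ((θ S).1 - (θ S).2) ^ 8 else 0) / a ^ 3))
        (QQ (Finset (Fin n)) (gaussianReal 0 1)) :=
      ((integrable_const a).add ((integrable_finsetSum _ fun S _ => h1 S).div_const _)).const_mul _
    refine (integral_mono_of_nonneg (Filter.Eventually.of_forall fun θ => ?_) h2
      (Filter.Eventually.of_forall fun θ => pt_bound B a ha θ)).trans ?_
    · exact Finset.sum_nonneg fun j _ => sq_nonneg _
    · rw [integral_const_mul, integral_add (integrable_const a)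
        ((integrable_finsetSum _ fun S _ => h1 S).div_const _), integral_div,
        integral_finsetSum _ fun S _ => h1 S]
      apply le_of_eq
      congr 2
      · simp
      · congr 1
        have h3 : ∀ S : Finset (Fin n), ∫ θ : Finset (Fin n) → ℝ × ℝ,
            (if S.card = 2 then ((θ S).1 - (θ S).2) ^ 8 else 0)
            ∂(QQ (Finset (Fin n)) (gaussianReal 0 1)) = if S.card = 2 then C8 else 0 := by
          intro S
          split_ifs
          · unfold C8
            exact int_mp (measurePreserving_eval (fun _ : Finset (Fin n) =>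
              (gaussianReal 0 1).prod (gaussianReal 0 1)) S)
              (g := fun x : ℝ × ℝ => (x.1 - x.2) ^ 8) (by fun_prop)
          · simp
        simp only [h3]
        rw [← Finset.sum_filter, Finset.sum_const, nsmul_eq_mul]
        rfl
  · intro j _
    refine Integrable.of_bound ((((gm ∅).sub (gm {j})).max measurable_const).pow_const 2).aestronglyMeasurable
      ((2 * B) ^ 2) (Filter.Eventually.of_forall fun θ => ?_)
    rw [Real.norm_eq_abs, abs_pow]
    refine pow_le_pow_left₀ (abs_nonneg _) ?_ 2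
    have h1 := abs_le.1 (clamp_abs hB (f 2 ℓ (sel ∅ θ)))
    have h2 := abs_le.1 (clamp_abs hB (f 2 ℓ (sel {j} θ)))
    rw [abs_of_nonneg (le_max_right _ _)]
    apply max_le <;> linarith

end Pool.Agent.H311.Gauss
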