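import Pool.Agent.H311.GaussA
import Pool.Agent.H311.KikC

set_option autoImplicit false
open MeasureTheory ProbabilityTheory
open scoped ENNReal

namespace Pool.Agent.H311.Gauss
open Pool.Agent.H311.Kik

/-- sign of a Boolean -/
def sg (b : Bool) : ℝ := if b then 1 else -1

lemma sg_sq (b : Bool) : sg b * sg b = 1 := by cases b <;> simp [sg]

lemma sg_beq (a b : Bool) : sg (a == b) = sg a * sg b := by cases a <;> cases b <;> simp [sg]

lemma beq_beq (a b : Bool) : (a == (a == b)) = b := by cases a <;> cases b <;> rfl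

lemma e2_eq {α : Type} [DecidableEq α] (z : α → ℝ) (s : Finset α) :
    ∑ S ∈ s.powersetCard 2, ∏ i ∈ S, z i = ((∑ i ∈ s, z i) ^ 2 - ∑ i ∈ s, z i ^ 2) / 2 := by
  induction s using Finset.induction_on with
  | empty =>
    rw [Finset.powersetCard_eq_empty.2 (by simp)]
    simp
  | insert a s ha ih =>
    rw [Finset.powersetCard_succ_insert ha, Finset.sum_union, ih, Finset.sum_image,
      Finset.sum_insert ha, Finset.sum_insert ha]
    · have h1 : ∑ x ∈ s.powersetCard 1, ∏ i ∈ insert a x, z i = z a * ∑ i ∈ s, z i := by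
        have h2 : ∀ x ∈ s.powersetCard 1, ∏ i ∈ insert a x, z i = z a * ∏ i ∈ x, z i := by
          intro x hx
          rw [Finset.prod_insert]
          intro h
          exact ha ((Finset.mem_powersetCard.1 hx).1 h)
        rw [Finset.sum_congr rfl h2, ← Finset.mul_sum, Finset.powersetCard_one, Finset.sum_map]
        simp
      rw [h1]
      ring
    · intro x hx y hy hxy
      have hx' : a ∉ x := fun h => ha ((Finset.mem_powersetCard.1 hx).1 h)
      have hy' : a ∉ y := fun h => ha ((Finset.mem_powersetCard.1 hy).1 h)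
      have := congrArg (fun t => t.erase a) hxy
      simpa [Finset.erase_insert hx', Finset.erase_insert hy'] using this
    · rw [Finset.disjoint_left]
      intro x hx hx'
      rw [Finset.mem_image] at hx'
      obtain ⟨y, hy, rfl⟩ := hx'
      exact ha ((Finset.mem_powersetCard.1 hx).1 (Finset.mem_insert_self a y))

/-- constant of the second moment bound -/
noncomputable def K0 : ℝ := ∫ t, Real.exp (t ^ 2 / 8) ∂(gaussianReal 0 1)

lemma K0_int : Integrable (fun t : ℝ => Real.exp (t ^ 2 / 8)) (gaussianReal 0 1) := by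
  rw [gaussianReal_of_var_ne_zero 0 (one_ne_zero), integrable_withDensity_iff (measurable_gaussianPDF 0 1)
    (Filter.Eventually.of_forall fun x => gaussianPDF_lt_top)]
  have h := (integrable_exp_neg_mul_sq (b := 3 / 8) (by norm_num)).const_mul
    ((Real.sqrt (2 * Real.pi * ((1 : NNReal) : ℝ)))⁻¹)
  refine h.congr (Filter.Eventually.of_forall fun t => ?_)
  simp only [toReal_gaussianPDF, gaussianPDFReal]
  have e : Real.exp (-(3 / 8) * t ^ 2) = Real.exp (-(t - 0) ^ 2 / (2 * ((1 : NNReal) : ℝ))) *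
      Real.exp (t ^ 2 / 8) := by
    rw [← Real.exp_add]
    congr 1
    simp only [NNReal.coe_one]
    ring
  rw [e]
  ring

lemma exp_half (a : ℝ) : Real.exp (a ^ 2 / 2) = ∫ t, Real.exp (a * t) ∂(gaussianReal 0 1) :=
  (exp_integral1 a).symm

lemma sum_exp_sq (n : ℕ) (lam : ℝ) (hl : (n : ℝ) * lam ^ 2 ≤ 1 / 4) :
    ∑ z : Fin n → Bool, Real.exp (lam ^ 2 * (∑ i, sg (z i)) ^ 2 / 2) ≤ 2 ^ n * K0 := by
  have h1 : ∀ z : Fin n → Bool, Real.exp (lam ^ 2 * (∑ i, sg (z i)) ^ 2 / 2) =
      ∫ t, Real.exp ((lam * ∑ i, sg (z i)) * t) ∂(gaussianReal 0 1) := by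
    intro z
    rw [← exp_half]
    congr 1
    ring
  simp only [h1]
  rw [← integral_finsetSum _ fun z _ => integrable_exp_mul_gaussianReal _]
  have h2 : ∀ t : ℝ, ∑ z : Fin n → Bool, Real.exp ((lam * ∑ i, sg (z i)) * t) ≤
      2 ^ n * Real.exp (t ^ 2 / 8) := by
    intro t
    have h3 : ∀ z : Fin n → Bool, Real.exp ((lam * ∑ i, sg (z i)) * t) =
        ∏ i, Real.exp (lam * t * sg (z i)) := by
      intro z
      rw [← Real.exp_sum, ← Finset.mul_sum]
      congr 1
      ring
    simp only [h3]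
    have h4 := Finset.prod_univ_sum (fun _ : Fin n => (Finset.univ : Finset Bool))
      (fun (_ : Fin n) (b : Bool) => Real.exp (lam * t * sg b))
    rw [Fintype.piFinset_univ] at h4
    rw [← h4]
    have h5 : ∑ b : Bool, Real.exp (lam * t * sg b) = 2 * Real.cosh (lam * t) := by
      rw [Fintype.sum_bool, Real.cosh_eq]
      simp only [sg]
      simp only [if_true, Bool.false_eq_true, if_false, mul_one, mul_neg]
      ring
    simp only [h5, Finset.prod_const, Finset.card_univ, Fintype.card_fin]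
    rw [mul_pow]
    gcongr
    calc Real.cosh (lam * t) ^ n ≤ Real.exp ((lam * t) ^ 2 / 2) ^ n := by
          exact pow_le_pow_left₀ (Real.cosh_pos _).le (Real.cosh_le_exp_half_sq _) n
      _ = Real.exp ((n : ℝ) * lam ^ 2 * t ^ 2 / 2) := by
          rw [← Real.exp_nat_mul]
          congr 1
          ring
      _ ≤ Real.exp (t ^ 2 / 8) := by
          apply Real.exp_le_exp.2
          nlinarith [sq_nonneg t]
  have h6 := integral_mono (μ := gaussianReal 0 1)
    (f := fun t => ∑ z : Fin n → Bool, Real.exp ((lam * ∑ i, sg (z i)) * t))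
    (g := fun t => 2 ^ n * Real.exp (t ^ 2 / 8))
    (integrable_finsetSum _ fun z _ => integrable_exp_mul_gaussianReal _)
    (K0_int.const_mul _) h2
  refine h6.trans (le_of_eq ?_)
  rw [integral_const_mul]
  rfl

variable {n : ℕ}

/-- the mean vectors of the planted model -/
noncomputable def mm (lam : ℝ) (x : Fin n → Bool) (S : Finset (Fin n)) : ℝ :=
  if S.card = 2 then lam * chi (fun i => sg (x i)) S else 0

lemma mm_inner (lam : ℝ) (x y : Fin n → Bool) :
    ∑ S, mm lam x S * mm lam y S ≤ lam ^ 2 * (∑ i, sg (x i == y i)) ^ 2 / 2 := by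
  have h1 : ∑ S, mm lam x S * mm lam y S =
      lam ^ 2 * ∑ S ∈ (Finset.univ : Finset (Fin n)).powersetCard 2, ∏ i ∈ S, sg (x i == y i) := by
    rw [Finset.mul_sum]
    have h2 : (Finset.univ : Finset (Fin n)).powersetCard 2 =
        Finset.univ.filter (fun S : Finset (Fin n) => S.card = 2) := by
      ext S
      simp [Finset.mem_powersetCard]
    rw [h2, Finset.sum_filter]
    refine Finset.sum_congr rfl fun S _ => ?_
    unfold mm chi
    split_ifs
    · simp only [sg_beq, Finset.prod_mul_distrib]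
      ring
    · ring
  rw [h1, e2_eq]
  have h3 : 0 ≤ ∑ i : Fin n, sg (x i == y i) ^ 2 := Finset.sum_nonneg fun i _ => sq_nonneg _
  have h4 : 0 ≤ lam ^ 2 := sq_nonneg _
  nlinarith [mul_nonneg h4 h3]

lemma second_moment (lam : ℝ) (hl : (n : ℝ) * lam ^ 2 ≤ 1 / 4) :
    ∑ x : Fin n → Bool, ∑ y : Fin n → Bool, Real.exp (∑ S, mm lam x S * mm lam y S) ≤
      K0 * (Fintype.card (Fin n → Bool) : ℝ) ^ 2 := by
  have hcard : (Fintype.card (Fin n → Bool) : ℝ) = 2 ^ n := by simp
  have h1 : ∀ x : Fin n → Bool, ∑ y : Fin n → Bool, Real.exp (∑ S, mm lam x S * mm lam y S) ≤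
      2 ^ n * K0 := by
    intro x
    refine le_trans ?_ (sum_exp_sq n lam hl)
    have h2 : ∑ z : Fin n → Bool, Real.exp (lam ^ 2 * (∑ i, sg (z i)) ^ 2 / 2) =
        ∑ y : Fin n → Bool, Real.exp (lam ^ 2 * (∑ i, sg (x i == y i)) ^ 2 / 2) := by
      refine (Finset.sum_nbij' (fun y i => (x i == y i)) (fun y i => (x i == y i)) ?_ ?_ ?_ ?_ ?_).symm
      · simp
      · simp
      · intro y _; funext i; exact beq_beq (x i) (y i)
      · intro y _; funext i; exact beq_beq (x i) (y i)
      · intro y _; rfl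
    rw [h2]
    exact Finset.sum_le_sum fun y _ => Real.exp_le_exp.2 (mm_inner lam x y)
  calc ∑ x : Fin n → Bool, ∑ y : Fin n → Bool, Real.exp (∑ S, mm lam x S * mm lam y S)
      ≤ ∑ x : Fin n → Bool, 2 ^ n * K0 := Finset.sum_le_sum fun x _ => h1 x
    _ = K0 * (Fintype.card (Fin n → Bool) : ℝ) ^ 2 := by
        rw [Finset.sum_const, Finset.card_univ, nsmul_eq_mul, hcard]
        ring

end Pool.Agent.H311.Gauss
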