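import Pool.Agent.H311.GaussC
import Pool.Agent.H311.GaussD

set_option autoImplicit false
open MeasureTheory ProbabilityTheory
open scoped ENNReal

namespace Pool.Agent.H311.Gauss
open Pool.Agent.H311.Kik

section
variable {ι : Type} [Fintype ι]

lemma mp_flip (e : ι → ℝ) (he : ∀ i, e i = 1 ∨ e i = -1) :
    MeasurePreserving (fun (z : ι → ℝ) i => e i * z i) (G ι) (G ι) := by
  refine measurePreserving_pi (fun _ : ι => gaussianReal 0 1) (fun _ : ι => gaussianReal 0 1)
    (f := fun i t => e i * t) (fun i => ?_)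
  rcases he i with h | h
  · rw [h]
    simp only [one_mul]
    exact MeasurePreserving.id _
  · rw [h]
    simp only [neg_mul, one_mul]
    refine ⟨by fun_prop, ?_⟩
    rw [gaussianReal_map_neg]
    simp

lemma abs_int : Integrable (fun t : ℝ => |t|) (gaussianReal 0 1) := by
  have h := (memLp_id_gaussianReal (μ := 0) (v := 1) 1)
  have h1 := h.integrable (by norm_num)
  exact h1.abs

lemma coord_abs_int (i : ι) : Integrable (fun z : ι → ℝ => |z i|) (G ι) :=
  (measurePreserving_eval (fun _ : ι => gaussianReal 0 1) i).integrable_comp_of_integrable abs_int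

/-- first absolute moment -/
noncomputable def c1 : ℝ := ∫ t, |t| ∂(gaussianReal 0 1)

lemma c1_pos : 0 < c1 := by
  unfold c1
  rw [integral_pos_iff_support_of_nonneg (fun t => abs_nonneg t) abs_int]
  have h : Function.support (fun t : ℝ => |t|) = {0}ᶜ := by
    ext t
    simp
  rw [h, prob_compl_eq_one_sub (measurableSet_singleton 0)]
  have : NullSingletonClass (gaussianReal 0 1) := nullSingletonClass_gaussianReal one_ne_zero
  rw [measure_singleton]
  simp

lemma coord_abs_integral (i : ι) : ∫ z : ι → ℝ, |z i| ∂(G ι) = c1 := by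
  unfold c1
  exact Pool.Agent.H4R2.AE.Conc.int_mp (measurePreserving_eval (fun _ : ι => gaussianReal 0 1) i)
    (g := fun t : ℝ => |t|) (by fun_prop)

end

variable {n : ℕ}

lemma f_int {ℓ : ℕ} [Nonempty (V n ℓ)] (m : Finset (Fin n) → ℝ) :
    Integrable (fun z => f 2 ℓ (z + m)) (G (Finset (Fin n))) := by
  have h1 : Integrable (fun z : Finset (Fin n) → ℝ => 2 * (ℓ : ℝ) * ∑ S, (|z S| + |m S|))
      (G (Finset (Fin n))) :=
    (integrable_finsetSum _ fun S _ => (coord_abs_int S).add (integrable_const _)).const_mul _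
  refine h1.mono' (f_cont.comp (by fun_prop)).aestronglyMeasurable
    (Filter.Eventually.of_forall fun z => ?_)
  rw [Real.norm_eq_abs]
  refine (f_abs_le (z + m)).trans ?_
  gcongr with S _
  exact abs_add_le _ _

lemma f_int0 {ℓ : ℕ} [Nonempty (V n ℓ)] :
    Integrable (fun z => f (n := n) 2 ℓ z) (G (Finset (Fin n))) := by
  have h := f_int (ℓ := ℓ) (0 : Finset (Fin n) → ℝ)
  simpa using h

/-- the constant shift on pairs -/
noncomputable def one2 (lam : ℝ) (S : Finset (Fin n)) : ℝ := if S.card = 2 then lam else 0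

lemma chi_pm (x : Fin n → Bool) (S : Finset (Fin n)) :
    chi (fun i => sg (x i)) S = 1 ∨ chi (fun i => sg (x i)) S = -1 := by
  have h := chi_sq (fun i => sg (x i)) (fun i => sg_sq _) S
  exact mul_self_eq_one_iff.1 h

lemma sym_int {ℓ : ℕ} [Nonempty (V n ℓ)] (F : ℝ → ℝ) (hF : Continuous F) (lam : ℝ)
    (x : Fin n → Bool) :
    ∫ z, F (f 2 ℓ (z + mm lam x)) ∂(G (Finset (Fin n))) =
      ∫ z, F (f 2 ℓ (z + one2 lam)) ∂(G (Finset (Fin n))) := by
  have hmp := mp_flip (fun S : Finset (Fin n) => chi (fun i => sg (x i)) S) (chi_pm x)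
  have hm : Measurable fun z : Finset (Fin n) → ℝ => F (f 2 ℓ (z + mm lam x)) := by
    refine (hF.comp (f_cont.comp ?_)).measurable
    fun_prop
  rw [← Pool.Agent.H4R2.AE.Conc.int_mp hmp hm]
  refine integral_congr_ae (Filter.Eventually.of_forall fun z => ?_)
  simp only
  congr 1
  rw [← f_flip (ℓ := ℓ) (fun i => sg (x i)) (fun i => sg_sq _) (z + one2 lam)]
  congr 1
  funext S
  simp only [Pi.add_apply, mm, one2]
  split_ifs
  · ring
  · ring

end Pool.Agent.H311.Gauss
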