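import Pool.Agent.H311.KikC

set_option autoImplicit false
open Matrix Finset

namespace Pool.Agent.H311.Kik

variable {n : ℕ}

lemma f_mid {ℓ : ℕ} [Nonempty (V n ℓ)] (X Z W : Finset (Fin n) → ℝ)
    (h : ∀ S, 2 * X S = Z S + W S) : 2 * f 2 ℓ X ≤ f 2 ℓ Z + f 2 ℓ W := by
  obtain ⟨v, hv, h1⟩ := f_sub_le (ℓ := ℓ) X
  have h2 := h1 Z
  have h3 := h1 W
  have h4 : ∑ S, (X S - Z S) * g 2 (ext v) S + ∑ S, (X S - W S) * g 2 (ext v) S = 0 := by
    rw [← Finset.sum_add_distrib]
    refine Finset.sum_eq_zero fun S _ => ?_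
    linear_combination (g 2 (ext v) S) * h S
  linarith

/-- vectors carried by an injective family of index sets -/
noncomputable def push {J : Type} [Fintype J] {ℓ : ℕ} (emb : J → V n ℓ) (u : J → ℝ) (I : V n ℓ) : ℝ :=
  ∑ j, if I = emb j then u j else 0

lemma push_dot {J : Type} [Fintype J] {ℓ : ℕ} (emb : J → V n ℓ) (u : J → ℝ) (w : V n ℓ → ℝ) :
    dotProduct (push emb u) w = ∑ j, u j * w (emb j) := by
  simp only [dotProduct, push, Finset.sum_mul]
  rw [Finset.sum_comm]
  refine Finset.sum_congr rfl fun j _ => ?_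
  simp [ite_mul]

lemma push_self {J : Type} [Fintype J] {ℓ : ℕ} (emb : J → V n ℓ) (hemb : Function.Injective emb)
    (u : J → ℝ) (j : J) : push emb u (emb j) = u j := by
  unfold push
  rw [Finset.sum_eq_single j]
  · simp
  · intro k _ hk
    rw [if_neg]
    intro h
    exact hk (hemb h).symm
  · simp

lemma push_quad {J : Type} [Fintype J] {r ℓ : ℕ} (emb : J → V n ℓ) (u : J → ℝ)
    (Z : Finset (Fin n) → ℝ) :
    dotProduct (push emb u) ((A r ℓ Z) *ᵥ (push emb u)) =
      ∑ j, ∑ k, u j * u k * A r ℓ Z (emb j) (emb k) := by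
  rw [push_dot]
  refine Finset.sum_congr rfl fun j _ => ?_
  rw [mulVec, dotProduct_comm, push_dot, Finset.mul_sum]
  refine Finset.sum_congr rfl fun k _ => ?_
  ring

lemma symm_insert (K : Finset (Fin n)) (j k : Fin n) (hj : j ∉ K) (hk : k ∉ K) (hjk : j ≠ k) :
    symmDiff (insert j K) (insert k K) = {j, k} := by
  ext x
  simp only [Finset.mem_symmDiff, Finset.mem_insert, Finset.mem_singleton]
  constructor
  · rintro (⟨h1, h2⟩ | ⟨h1, h2⟩)
    · rcases h1 with rfl | h1
      · left; rfl
      · exact absurd (Or.inr h1) h2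
    · rcases h1 with rfl | h1
      · right; rfl
      · exact absurd (Or.inr h1) h2
  · rintro (rfl | rfl)
    · left
      refine ⟨Or.inl rfl, ?_⟩
      rintro (h | h)
      · exact hjk h
      · exact hj h
    · right
      refine ⟨Or.inl rfl, ?_⟩
      rintro (h | h)
      · exact hjk h.symm
      · exact hk h

/-- sites outside `K` -/
abbrev JJ (K : Finset (Fin n)) : Type := {j : Fin n // j ∉ K}

/-- the star bound -/
lemma star_bound {ℓ : ℕ} [Nonempty (V n ℓ)] (K : Finset (Fin n)) (hK : K.card + 1 = ℓ)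
    (j0 : Fin n) (hj0 : j0 ∉ K) (Z : Finset (Fin n) → ℝ)
    (hn : 0 < ((insert j0 K)ᶜ).card) :
    (∑ j ∈ (insert j0 K)ᶜ, |Z {j0, j}|) / Real.sqrt ((insert j0 K)ᶜ).card ≤
      f 2 ℓ (fun S => if j0 ∈ S then Z S else 0) := by
  obtain ⟨m, hm⟩ : ∃ m : ℝ, m = (((insert j0 K)ᶜ).card : ℝ) := ⟨_, rfl⟩
  have hm0 : 0 < m := by rw [hm]; exact_mod_cast hn
  have hs : 0 < Real.sqrt m := Real.sqrt_pos.2 hm0
  let emb : JJ K → V n ℓ := fun j => ⟨insert j.1 K, by rw [Finset.card_insert_of_notMem j.2, hK]⟩
  have hemb : Function.Injective emb := by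
    intro a b hab
    have h1 : insert a.1 K = insert b.1 K := congrArg Subtype.val hab
    have h2 : a.1 ∈ insert b.1 K := by rw [← h1]; exact Finset.mem_insert_self _ _
    rw [Finset.mem_insert] at h2
    rcases h2 with h2 | h2
    · exact Subtype.ext h2
    · exact absurd h2 a.2
  let s : Fin n → ℝ := fun j => if 0 ≤ Z {j0, j} then 1 else -1
  have hs2 : ∀ j, s j * s j = 1 := by
    intro j
    simp only [s]
    split_ifs <;> norm_num
  have hsZ : ∀ j, s j * Z {j0, j} = |Z {j0, j}| := by
    intro j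
    simp only [s]
    split_ifs with h
    · rw [one_mul, abs_of_nonneg h]
    · rw [abs_of_neg (lt_of_not_ge h)]
      ring
  let u : JJ K → ℝ := fun j => if j.1 = j0 then 1 / Real.sqrt 2 else s j.1 / (Real.sqrt 2 * Real.sqrt m)
  have h2 : (1 / Real.sqrt 2) * (1 / Real.sqrt 2) = 1 / 2 := by
    rw [div_mul_div_comm, Real.mul_self_sqrt (by norm_num)]
    norm_num
  have hone : ∀ c : ℝ, ∑ j : JJ K, (if j.1 = j0 then c else 0) = c := by
    intro c
    rw [Finset.sum_eq_single (⟨j0, hj0⟩ : JJ K)]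
    · simp
    · intro b _ hb
      rw [if_neg]
      intro h
      exact hb (Subtype.ext h)
    · simp
  -- conversion of sums over `JJ K`
  have hsum : ∀ F : Fin n → ℝ, ∑ j : JJ K, (if j.1 = j0 then 0 else F j.1) =
      ∑ j ∈ (insert j0 K)ᶜ, F j := by
    intro F
    have h1 := (Finset.sum_subtype (Finset.univ.filter fun j : Fin n => j ∉ K) (p := fun j => j ∉ K)
      (F := inferInstance) (by simp) (fun j => if j = j0 then 0 else F j))
    rw [← h1, Finset.sum_filter]
    rw [← Finset.sum_filter_add_sum_filter_not Finset.univ (fun j => j ∈ (insert j0 K)ᶜ)]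
    rw [Finset.sum_congr (s₂ := (insert j0 K)ᶜ) (g := F)]
    · have h0 : ∑ a ∈ Finset.univ.filter (fun a => a ∉ (insert j0 K)ᶜ),
          (if a ∉ K then (if a = j0 then 0 else F a) else 0) = 0 := by
        refine Finset.sum_eq_zero fun a ha => ?_
        simp only [Finset.mem_compl, Finset.mem_insert, not_not, Finset.mem_filter,
          Finset.mem_univ, true_and] at ha
        rcases ha with rfl | ha
        · simp
        · simp [ha]
      rw [h0, add_zero]
    · ext a; simp
    · intro a ha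
      simp only [Finset.mem_compl, Finset.mem_insert, not_or] at ha
      rw [if_pos ha.2, if_neg ha.1]
  have hunit : dotProduct (push emb u) (push emb u) = 1 := by
    rw [push_dot]
    simp only [push_self emb hemb]
    have h3 : ∀ j : JJ K, u j * u j = (if j.1 = j0 then 1 / 2 else 0) +
        (if j.1 = j0 then 0 else 1 / (2 * m)) := by
      intro j
      by_cases hj : j.1 = j0
      · simp only [u, hj, if_true]
        rw [h2]
        ring
      · simp only [u, hj, if_false]
        rw [div_mul_div_comm, hs2]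
        have : Real.sqrt 2 * Real.sqrt m * (Real.sqrt 2 * Real.sqrt m) = 2 * m := by
          have a1 := Real.mul_self_sqrt (show (0 : ℝ) ≤ 2 by norm_num)
          have a2 := Real.mul_self_sqrt hm0.le
          calc Real.sqrt 2 * Real.sqrt m * (Real.sqrt 2 * Real.sqrt m) =
              (Real.sqrt 2 * Real.sqrt 2) * (Real.sqrt m * Real.sqrt m) := by ring
            _ = 2 * m := by rw [a1, a2]
        rw [this]
        ring
    simp only [h3]
    rw [Finset.sum_add_distrib, hsum (fun _ => 1 / (2 * m)), Finset.sum_const, nsmul_eq_mul, ← hm]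
    rw [hone]
    field_simp
    norm_num
  obtain ⟨-, -, -, hmax⟩ := exists_max (r := 2) (ℓ := ℓ)
    (fun S : Finset (Fin n) => if j0 ∈ S then Z S else 0)
  refine le_trans (le_of_eq ?_) (hmax _ hunit)
  rw [push_quad]
  have hA : ∀ j k : JJ K, A 2 ℓ (fun S : Finset (Fin n) => if j0 ∈ S then Z S else 0) (emb j) (emb k) =
      (if j.1 = j0 then (if k.1 = j0 then 0 else Z {j0, k.1}) else 0) +
      (if k.1 = j0 then (if j.1 = j0 then 0 else Z {j0, j.1}) else 0) := by
    intro j k
    simp only [A, Matrix.of_apply, emb]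
    by_cases hjk : j.1 = k.1
    · rw [hjk]
      simp only [symmDiff_self]
      by_cases hk : k.1 = j0 <;> simp [hk]
    · rw [symm_insert K j.1 k.1 j.2 k.2 hjk, if_pos (Finset.card_pair hjk)]
      by_cases hj : j.1 = j0
      · have hk : k.1 ≠ j0 := fun h => hjk (hj.trans h.symm)
        simp [hj, hk]
      · by_cases hk : k.1 = j0
        · simp [hj, hk, Finset.pair_comm]
        · have : j0 ∉ ({j.1, k.1} : Finset (Fin n)) := by
            simp only [Finset.mem_insert, Finset.mem_singleton, not_or]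
            exact ⟨fun h => hj h.symm, fun h => hk h.symm⟩
          simp [hj, hk, this]
  simp only [hA]
  have hq : ∀ j k : JJ K, u j * u k * ((if j.1 = j0 then (if k.1 = j0 then 0 else Z {j0, k.1}) else 0) +
      (if k.1 = j0 then (if j.1 = j0 then 0 else Z {j0, j.1}) else 0)) =
      (if j.1 = j0 then (if k.1 = j0 then 0 else |Z {j0, k.1}| / (2 * Real.sqrt m)) else 0) +
      (if k.1 = j0 then (if j.1 = j0 then 0 else |Z {j0, j.1}| / (2 * Real.sqrt m)) else 0) := by
    intro j k
    have hval : ∀ i : Fin n, (1 / Real.sqrt 2) * (s i / (Real.sqrt 2 * Real.sqrt m)) * Z {j0, i} =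
        |Z {j0, i}| / (2 * Real.sqrt m) := by
      intro i
      rw [← hsZ i]
      have a1 := Real.mul_self_sqrt (show (0 : ℝ) ≤ 2 by norm_num)
      have a3 : Real.sqrt 2 ≠ 0 := by positivity
      have a4 : (1 / Real.sqrt 2) * (s i / (Real.sqrt 2 * Real.sqrt m)) =
          s i / (2 * Real.sqrt m) := by
        rw [div_mul_div_comm, ← mul_assoc, a1, one_mul]
      rw [a4]
      ring
    by_cases hj : j.1 = j0
    · by_cases hk : k.1 = j0
      · simp [hj, hk]
      · simp only [hj, hk, if_true, if_false, add_zero, u]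
        exact hval k.1
    · by_cases hk : k.1 = j0
      · simp only [hj, hk, if_true, if_false, zero_add, u]
        rw [← hval j.1]
        ring
      · simp [hj, hk]
  simp only [hq, Finset.sum_add_distrib]
  have e1 : ∑ j : JJ K, ∑ k : JJ K, (if j.1 = j0 then
      (if k.1 = j0 then 0 else |Z {j0, k.1}| / (2 * Real.sqrt m)) else 0) =
      ∑ k ∈ (insert j0 K)ᶜ, |Z {j0, k}| / (2 * Real.sqrt m) := by
    rw [← hsum (fun k => |Z {j0, k}| / (2 * Real.sqrt m))]
    rw [Finset.sum_comm]
    refine Finset.sum_congr rfl fun k _ => ?_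
    rw [hone]
  have e2 : ∑ j : JJ K, ∑ k : JJ K, (if k.1 = j0 then
      (if j.1 = j0 then 0 else |Z {j0, j.1}| / (2 * Real.sqrt m)) else 0) =
      ∑ k ∈ (insert j0 K)ᶜ, |Z {j0, k}| / (2 * Real.sqrt m) := by
    rw [← hsum (fun k => |Z {j0, k}| / (2 * Real.sqrt m))]
    refine Finset.sum_congr rfl fun k _ => ?_
    rw [hone]
  rw [e1, e2, ← Finset.sum_add_distrib, ← hm, Finset.sum_div]
  refine Finset.sum_congr rfl fun k _ => ?_
  field_simp
  ring

end Pool.Agent.H311.Kik
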