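import Pool.Agent.H311.GaussE
import Pool.Agent.H311.KikD

set_option autoImplicit false
open MeasureTheory ProbabilityTheory Filter
open scoped ENNReal

namespace Pool.Agent.H311.Gauss
open Pool.Agent.H311.Kik

variable {n : ℕ}

lemma low {ℓ : ℕ} (h1 : 1 ≤ ℓ) (hn : ℓ < n) :
    c1 * Real.sqrt ((n : ℝ) - ℓ) ≤ ∫ z, f (n := n) 2 ℓ z ∂(G (Finset (Fin n))) := by
  obtain ⟨K, -, hK⟩ := Finset.exists_subset_card_eq (s := (Finset.univ : Finset (Fin n)))
    (n := ℓ - 1) (by simp; omega)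
  obtain ⟨j0, hj0⟩ : ∃ j0 : Fin n, j0 ∉ K := by
    by_contra h
    push Not at h
    have : K = Finset.univ := by ext; simp [h]
    rw [this, Finset.card_univ, Fintype.card_fin] at hK
    omega
  have hK1 : K.card + 1 = ℓ := by omega
  have hcard : ((insert j0 K)ᶜ).card = n - ℓ := by
    rw [Finset.card_compl, Finset.card_insert_of_notMem hj0, hK1, Fintype.card_fin]
  have hpos : 0 < ((insert j0 K)ᶜ).card := by rw [hcard]; omega
  haveI : Nonempty (V n ℓ) := ⟨⟨insert j0 K, by rw [Finset.card_insert_of_notMem hj0, hK1]⟩⟩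
  have hmr : (((insert j0 K)ᶜ).card : ℝ) = (n : ℝ) - ℓ := by
    rw [hcard, Nat.cast_sub hn.le]
  have he : ∀ S : Finset (Fin n), (fun S : Finset (Fin n) => if j0 ∈ S then (1 : ℝ) else -1) S = 1 ∨
      (fun S : Finset (Fin n) => if j0 ∈ S then (1 : ℝ) else -1) S = -1 := by
    intro S
    by_cases h : j0 ∈ S <;> simp [h]
  have hmp := mp_flip (fun S : Finset (Fin n) => if j0 ∈ S then (1 : ℝ) else -1) he
  have hpt : ∀ z : Finset (Fin n) → ℝ,
      (∑ j ∈ (insert j0 K)ᶜ, |z {j0, j}|) / Real.sqrt ((insert j0 K)ᶜ).card ≤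
      (f 2 ℓ z + f 2 ℓ (fun S => (if j0 ∈ S then (1 : ℝ) else -1) * z S)) / 2 := by
    intro z
    have h2 := star_bound K hK1 j0 hj0 z hpos
    have h3 := f_mid (ℓ := ℓ) (fun S => if j0 ∈ S then z S else 0) z
      (fun S => (if j0 ∈ S then (1 : ℝ) else -1) * z S) (by
        intro S
        by_cases h : j0 ∈ S
        · simp only [h, if_true]; ring
        · simp only [h, if_false]; ring)
    linarith
  have hi1 : Integrable (fun z : Finset (Fin n) → ℝ =>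
      f 2 ℓ (fun S => (if j0 ∈ S then (1 : ℝ) else -1) * z S)) (G (Finset (Fin n))) :=
    hmp.integrable_comp_of_integrable f_int0
  have hi2 : Integrable (fun z : Finset (Fin n) → ℝ =>
      (f 2 ℓ z + f 2 ℓ (fun S => (if j0 ∈ S then (1 : ℝ) else -1) * z S)) / 2)
      (G (Finset (Fin n))) := (f_int0.add hi1).div_const 2
  have hi3 : Integrable (fun z : Finset (Fin n) → ℝ =>
      (∑ j ∈ (insert j0 K)ᶜ, |z {j0, j}|) / Real.sqrt ((insert j0 K)ᶜ).card)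
      (G (Finset (Fin n))) :=
    (integrable_finsetSum _ fun j _ => coord_abs_int _).div_const _
  have h4 := integral_mono hi3 hi2 hpt
  have e1 : ∫ z : Finset (Fin n) → ℝ, f 2 ℓ (fun S => (if j0 ∈ S then (1 : ℝ) else -1) * z S)
      ∂(G (Finset (Fin n))) = ∫ z, f 2 ℓ z ∂(G (Finset (Fin n))) :=
    Pool.Agent.H4R2.AE.Conc.int_mp hmp f_cont.measurable
  rw [integral_div, integral_div, integral_add f_int0 hi1, e1,
    integral_finsetSum _ fun j _ => coord_abs_int _] at h4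
  simp only [coord_abs_integral, Finset.sum_const, nsmul_eq_mul] at h4
  have h5 : (∫ z, f (n := n) 2 ℓ z ∂(G (Finset (Fin n))) +
      ∫ z, f (n := n) 2 ℓ z ∂(G (Finset (Fin n)))) / 2 =
      ∫ z, f (n := n) 2 ℓ z ∂(G (Finset (Fin n))) := by ring
  rw [h5] at h4
  refine le_trans (le_of_eq ?_) h4
  rw [hmr]
  have h6 : (0 : ℝ) < (n : ℝ) - ℓ := by
    have : (ℓ : ℝ) < n := by exact_mod_cast hn
    linarith
  have h7 : Real.sqrt ((n : ℝ) - ℓ) ≠ 0 := (Real.sqrt_pos.2 h6).ne'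
  rw [eq_div_iff h7]
  have h8 := Real.mul_self_sqrt h6.le
  linear_combination c1 * h8

lemma trunc_ineq {ℓ : ℕ} [Nonempty (V n ℓ)] (lam : ℝ) (hl : (n : ℝ) * lam ^ 2 ≤ 1 / 4)
    (B a t : ℝ) (hB : 0 ≤ B) (ha : 0 < a) (ht : 0 < t) :
    ∫ z, clamp B (f 2 ℓ (z + one2 lam)) ∂(G (Finset (Fin n))) -
      ∫ z, clamp B (f 2 ℓ z) ∂(G (Finset (Fin n))) ≤
      t * (4 * (ℓ : ℝ) ^ 2 * (a + N2 n * C8 / a ^ 3)) / 2 + (K0 - 1) / (2 * t) := by
  have hFm : Measurable fun z : Finset (Fin n) → ℝ => clamp B (f 2 ℓ z) :=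
    ((clamp_cont B).comp f_cont).measurable
  have h := chi2 (ι := Finset (Fin n)) (X := Fin n → Bool) (fun x => mm lam x) K0
    (second_moment lam hl) (fun z => clamp B (f 2 ℓ z)) hFm B (fun z => clamp_abs hB _)
    (4 * (ℓ : ℝ) ^ 2 * (a + N2 n * C8 / a ^ 3)) (var_bound B a hB ha) t ht
  have h2 : ∀ x : Fin n → Bool, ∫ z, clamp B (f 2 ℓ (z + mm lam x)) ∂(G (Finset (Fin n))) =
      ∫ z, clamp B (f 2 ℓ (z + one2 lam)) ∂(G (Finset (Fin n))) :=
    fun x => sym_int (clamp B) (clamp_cont B) lam x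
  simp only [h2] at h
  rw [Finset.sum_const, Finset.card_univ, nsmul_eq_mul, mul_div_assoc] at h
  have hc : (Fintype.card (Fin n → Bool) : ℝ) ≠ 0 := by
    have : 0 < Fintype.card (Fin n → Bool) := Fintype.card_pos
    exact_mod_cast this.ne'
  rw [mul_div_cancel₀ _ hc] at h
  exact h

lemma clamp_tendsto {ℓ : ℕ} [Nonempty (V n ℓ)] (m : Finset (Fin n) → ℝ) :
    Tendsto (fun k : ℕ => ∫ z, clamp (k : ℝ) (f 2 ℓ (z + m)) ∂(G (Finset (Fin n)))) atTop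
      (nhds (∫ z, f 2 ℓ (z + m) ∂(G (Finset (Fin n))))) := by
  refine tendsto_integral_of_dominated_convergence (fun z => |f 2 ℓ (z + m)|) ?_
    (f_int m).abs ?_ ?_
  · intro k
    exact ((clamp_cont _).comp (f_cont.comp (by fun_prop))).aestronglyMeasurable
  · intro k
    refine Eventually.of_forall fun z => ?_
    rw [Real.norm_eq_abs]
    exact clamp_le_abs (Nat.cast_nonneg k) _
  · refine Eventually.of_forall fun z => ?_
    refine tendsto_const_nhds.congr' ?_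
    obtain ⟨N, hN⟩ := exists_nat_ge |f 2 ℓ (z + m)|
    filter_upwards [eventually_ge_atTop N] with k hk
    rw [clamp_eq]
    exact hN.trans (by exact_mod_cast hk)

lemma main_ineq {ℓ : ℕ} [Nonempty (V n ℓ)] (lam : ℝ) (hl : (n : ℝ) * lam ^ 2 ≤ 1 / 4)
    (a t : ℝ) (ha : 0 < a) (ht : 0 < t) :
    ∫ z, f 2 ℓ (z + one2 lam) ∂(G (Finset (Fin n))) -
      ∫ z, f (n := n) 2 ℓ z ∂(G (Finset (Fin n))) ≤
      t * (4 * (ℓ : ℝ) ^ 2 * (a + N2 n * C8 / a ^ 3)) / 2 + (K0 - 1) / (2 * t) := by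
  have h1 := clamp_tendsto (ℓ := ℓ) (one2 lam : Finset (Fin n) → ℝ)
  have h2 := clamp_tendsto (ℓ := ℓ) (0 : Finset (Fin n) → ℝ)
  simp only [add_zero] at h2
  refine le_of_tendsto (h1.sub h2) (Eventually.of_forall fun k => ?_)
  exact trunc_ineq lam hl k a t (Nat.cast_nonneg k) ha ht

lemma N2_le (n : ℕ) : N2 n ≤ (n : ℝ) ^ 2 := by
  unfold N2
  have h2 : Finset.univ.filter (fun S : Finset (Fin n) => S.card = 2) =
      (Finset.univ : Finset (Fin n)).powersetCard 2 := by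
    ext S
    simp [Finset.mem_powersetCard]
  rw [h2, Finset.card_powersetCard, Finset.card_univ, Fintype.card_fin]
  have := Nat.choose_le_pow n 2
  exact_mod_cast this

/-- the gap between planted and null expectations is of smaller order -/
lemma gap {ℓ : ℕ} [Nonempty (V n ℓ)] (hn : 0 < n) (lam : ℝ) (hl : (n : ℝ) * lam ^ 2 ≤ 1 / 4) :
    ∫ z, f 2 ℓ (z + one2 lam) ∂(G (Finset (Fin n))) -
      ∫ z, f (n := n) 2 ℓ z ∂(G (Finset (Fin n))) ≤
      (2 * (ℓ : ℝ) ^ 2 * (1 + C8) + |K0| + 1) * Real.sqrt (Real.sqrt n) := by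
  obtain ⟨q, hq⟩ : ∃ q : ℝ, q = Real.sqrt (Real.sqrt n) := ⟨_, rfl⟩
  have hn' : (0 : ℝ) < n := by exact_mod_cast hn
  have hq0 : 0 < q := by rw [hq]; positivity
  have hq2 : q ^ 2 = Real.sqrt n := by rw [hq]; exact Real.sq_sqrt (Real.sqrt_nonneg _)
  have hq4 : q ^ 4 = n := by
    have : q ^ 4 = (q ^ 2) ^ 2 := by ring
    rw [this, hq2, Real.sq_sqrt hn'.le]
  have h := main_ineq (ℓ := ℓ) lam hl (q ^ 2) (1 / q) (by positivity) (by positivity)
  refine h.trans ?_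
  rw [← hq]
  have h1 : N2 n * C8 / (q ^ 2) ^ 3 ≤ C8 * q ^ 2 := by
    rw [div_le_iff₀ (by positivity)]
    have h2 : N2 n ≤ q ^ 8 := by
      have := N2_le n
      have e : q ^ 8 = (n : ℝ) ^ 2 := by rw [← hq4]; ring
      rw [e]; exact this
    calc N2 n * C8 ≤ q ^ 8 * C8 := by gcongr; exact C8_nonneg
      _ = C8 * q ^ 2 * (q ^ 2) ^ 3 := by ring
  have h3 : 1 / q * (4 * (ℓ : ℝ) ^ 2 * (q ^ 2 + N2 n * C8 / (q ^ 2) ^ 3)) / 2 ≤
      1 / q * (4 * (ℓ : ℝ) ^ 2 * (q ^ 2 + C8 * q ^ 2)) / 2 := by gcongr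
  have h4 : 1 / q * (4 * (ℓ : ℝ) ^ 2 * (q ^ 2 + C8 * q ^ 2)) / 2 =
      2 * (ℓ : ℝ) ^ 2 * (1 + C8) * q := by
    field_simp
    ring
  have h5 : (K0 - 1) / (2 * (1 / q)) = (K0 - 1) / 2 * q := by
    field_simp
  rw [h5]
  have h6 : (K0 - 1) / 2 ≤ |K0| + 1 := by
    have := le_abs_self K0
    have := abs_nonneg K0
    linarith
  have h7 : (K0 - 1) / 2 * q ≤ (|K0| + 1) * q := by gcongr
  calc 1 / q * (4 * (ℓ : ℝ) ^ 2 * (q ^ 2 + N2 n * C8 / (q ^ 2) ^ 3)) / 2 + (K0 - 1) / 2 * q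
      ≤ 2 * (ℓ : ℝ) ^ 2 * (1 + C8) * q + (|K0| + 1) * q := by linarith
    _ = (2 * (ℓ : ℝ) ^ 2 * (1 + C8) + |K0| + 1) * q := by ring

end Pool.Agent.H311.Gauss
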