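import Mathlib

set_option autoImplicit false
open Matrix Finset

namespace Pool.Agent.H311.Kik

variable {n : ℕ}

/-- the `ℓ`-subsets of `Fin n` -/
abbrev V (n ℓ : ℕ) : Type := {K : Finset (Fin n) // K.card = ℓ}

/-- the pure noise Kikuchi matrix -/
noncomputable def A (r ℓ : ℕ) (Z : Finset (Fin n) → ℝ) : Matrix (V n ℓ) (V n ℓ) ℝ :=
  Matrix.of fun I J => if (symmDiff I.1 J.1).card = r then Z (symmDiff I.1 J.1) else 0

/-- its largest eigenvalue -/
noncomputable def f (r ℓ : ℕ) (Z : Finset (Fin n) → ℝ) : ℝ :=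
  sSup {t : ℝ | ∃ v : V n ℓ → ℝ, dotProduct v v = 1 ∧ t = dotProduct v ((A r ℓ Z) *ᵥ v)}

/-- extension by zero -/
noncomputable def ext {ℓ : ℕ} (v : V n ℓ → ℝ) (K : Finset (Fin n)) : ℝ :=
  if h : K.card = ℓ then v ⟨K, h⟩ else 0

/-- coefficient of `Z S` in the quadratic form -/
noncomputable def g (r : ℕ) (w : Finset (Fin n) → ℝ) (S : Finset (Fin n)) : ℝ :=
  if S.card = r then ∑ K, w K * w (symmDiff K S) else 0

lemma sum_ext {ℓ : ℕ} (v : V n ℓ → ℝ) (F : Finset (Fin n) → ℝ) :
    ∑ I : V n ℓ, v I * F I.1 = ∑ K, ext v K * F K := by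
  have h1 : ∑ K, ext v K * F K =
      ∑ K ∈ Finset.univ.filter (fun K : Finset (Fin n) => K.card = ℓ), ext v K * F K := by
    rw [Finset.sum_filter]
    refine Finset.sum_congr rfl fun K _ => ?_
    split_ifs with h
    · rfl
    · simp [ext, h]
  rw [h1, Finset.sum_subtype (Finset.univ.filter (fun K : Finset (Fin n) => K.card = ℓ))
    (p := fun K => K.card = ℓ) (by simp)]
  refine Finset.sum_congr rfl fun I _ => ?_
  have : ext v I.1 = v I := by simp [ext, I.2]
  rw [this]

lemma sum_symm (K : Finset (Fin n)) (F : Finset (Fin n) → ℝ) :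
    ∑ L, F L = ∑ S, F (symmDiff K S) := by
  refine Finset.sum_nbij' (fun L => symmDiff K L) (fun S => symmDiff K S) ?_ ?_ ?_ ?_ ?_
  · simp
  · simp
  · intro a _; simp
  · intro a _; simp
  · intro a _; simp

lemma dot_ext {ℓ : ℕ} (v : V n ℓ → ℝ) : dotProduct v v = ∑ K, ext v K ^ 2 := by
  have h := sum_ext v (ext v)
  have e : ∀ I : V n ℓ, ext v I.1 = v I := fun I => by simp [ext, I.2]
  simp only [e] at h
  rw [dotProduct, h]
  exact Finset.sum_congr rfl fun K _ => by ring

lemma quad {r ℓ : ℕ} (Z : Finset (Fin n) → ℝ) (v : V n ℓ → ℝ) :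
    dotProduct v ((A r ℓ Z) *ᵥ v) = ∑ S, Z S * g r (ext v) S := by
  have h1 : dotProduct v ((A r ℓ Z) *ᵥ v) =
      ∑ K, ext v K * ∑ L, ext v L *
        (if (symmDiff K L).card = r then Z (symmDiff K L) else 0) := by
    rw [dotProduct]
    rw [← sum_ext v (fun K => ∑ L, ext v L *
        (if (symmDiff K L).card = r then Z (symmDiff K L) else 0))]
    refine Finset.sum_congr rfl fun I _ => ?_
    congr 1
    rw [← sum_ext v (fun L => if (symmDiff I.1 L).card = r then Z (symmDiff I.1 L) else 0)]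
    simp only [mulVec, dotProduct, A, Matrix.of_apply]
    exact Finset.sum_congr rfl fun J _ => by ring
  rw [h1]
  have h2 : ∀ K, (∑ L, ext v L * (if (symmDiff K L).card = r then Z (symmDiff K L) else 0)) =
      ∑ S, ext v (symmDiff K S) * (if S.card = r then Z S else 0) := by
    intro K
    rw [sum_symm K]
    refine Finset.sum_congr rfl fun S _ => ?_
    rw [symmDiff_symmDiff_cancel_left]
  simp only [h2, Finset.mul_sum]
  rw [Finset.sum_comm]
  refine Finset.sum_congr rfl fun S _ => ?_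
  unfold g
  split_ifs with hS
  · rw [Finset.mul_sum]
    exact Finset.sum_congr rfl fun K _ => by ring
  · simp

end Pool.Agent.H311.Kik
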