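import Pool.Agent.H311.KikA

set_option autoImplicit false
open Matrix Finset

namespace Pool.Agent.H311.Kik

variable {n : ℕ}

/-- occupation weight of a site -/
noncomputable def p (w : Finset (Fin n) → ℝ) (i : Fin n) : ℝ :=
  ∑ K, if i ∈ K then w K ^ 2 else 0

lemma p_nonneg (w : Finset (Fin n) → ℝ) (i : Fin n) : 0 ≤ p w i := by
  unfold p
  refine Finset.sum_nonneg fun K _ => ?_
  split_ifs
  · positivity
  · exact le_rfl

lemma sum_p {ℓ : ℕ} (w : Finset (Fin n) → ℝ) (hw : ∀ K, K.card ≠ ℓ → w K = 0) :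
    ∑ i, p w i = ℓ * ∑ K, w K ^ 2 := by
  unfold p
  rw [Finset.sum_comm, Finset.mul_sum]
  refine Finset.sum_congr rfl fun K _ => ?_
  by_cases h : K.card = ℓ
  · rw [← Finset.sum_filter]
    simp [h]
  · simp [hw K h]

lemma card_both {K : Finset (Fin n)} {i j : Fin n} (hi : i ∈ K) (hj : j ∈ K) :
    (symmDiff K {i, j}).card < K.card := by
  have hsub : ({i, j} : Finset (Fin n)) ⊆ K := by
    intro x hx
    simp only [Finset.mem_insert, Finset.mem_singleton] at hx
    rcases hx with rfl | rfl <;> assumption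
  rw [symmDiff_of_ge hsub]
  refine Finset.card_lt_card ?_
  refine Finset.ssubset_iff_subset_ne.2 ⟨Finset.sdiff_subset, ?_⟩
  intro h
  have : i ∈ K \ {i, j} := by rw [h]; exact hi
  simp at this

lemma card_none {K : Finset (Fin n)} {i j : Fin n} (hi : i ∉ K) (hj : j ∉ K) :
    K.card < (symmDiff K {i, j}).card := by
  have hd : Disjoint K {i, j} := by
    rw [Finset.disjoint_right]
    intro x hx
    simp only [Finset.mem_insert, Finset.mem_singleton] at hx
    rcases hx with rfl | rfl <;> assumption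
  rw [hd.symmDiff_eq_sup]
  refine Finset.card_lt_card ?_
  refine Finset.ssubset_iff_subset_ne.2 ⟨Finset.subset_union_left, ?_⟩
  intro h
  have : i ∈ K := by rw [h]; simp
  exact hi this

lemma half_sq (w : Finset (Fin n) → ℝ) (i j : Fin n) :
    (∑ K, if i ∈ K ∧ j ∉ K then w K * w (symmDiff K {i, j}) else 0) ^ 2 ≤ p w i * p w j := by
  have h1 : (∑ K, if i ∈ K ∧ j ∉ K then w K * w (symmDiff K {i, j}) else 0) =
      ∑ K, (if i ∈ K ∧ j ∉ K then w K else 0) *
        (if i ∈ K ∧ j ∉ K then w (symmDiff K {i, j}) else 0) := by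
    refine Finset.sum_congr rfl fun K _ => ?_
    split_ifs <;> ring
  rw [h1]
  refine (Finset.sum_mul_sq_le_sq_mul_sq _ _ _).trans ?_
  refine mul_le_mul ?_ ?_ (Finset.sum_nonneg fun K _ => sq_nonneg _) (p_nonneg w i)
  · unfold p
    refine Finset.sum_le_sum fun K _ => ?_
    by_cases hi : i ∈ K
    · by_cases hj : j ∈ K
      · simp [hi, hj, sq_nonneg]
      · simp [hi, hj]
    · simp [hi]
  · unfold p
    rw [sum_symm {i, j}]
    refine Finset.sum_le_sum fun L _ => ?_
    rw [symmDiff_comm {i, j} L, symmDiff_symmDiff_cancel_right]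
    by_cases hj : j ∈ L
    · simp only [hj, if_true]
      split_ifs
      · exact le_rfl
      · simp [sq_nonneg]
    · have : ¬ (i ∈ symmDiff L {i, j} ∧ j ∉ symmDiff L {i, j}) := by
        rintro ⟨-, h⟩
        apply h
        rw [Finset.mem_symmDiff]
        right
        exact ⟨by simp, hj⟩
      rw [if_neg this]
      simp [hj]

lemma g_pair {ℓ : ℕ} (w : Finset (Fin n) → ℝ) (hw : ∀ K, K.card ≠ ℓ → w K = 0)
    (i j : Fin n) : g 2 w {i, j} ^ 2 ≤ 4 * (p w i * p w j) := by
  unfold g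
  split_ifs with h2
  · have e : ∑ K, w K * w (symmDiff K {i, j}) =
        (∑ K, if i ∈ K ∧ j ∉ K then w K * w (symmDiff K {i, j}) else 0) +
        (∑ K, if j ∈ K ∧ i ∉ K then w K * w (symmDiff K {j, i}) else 0) := by
      rw [← Finset.sum_add_distrib]
      refine Finset.sum_congr rfl fun K _ => ?_
      rw [Finset.pair_comm j i]
      by_cases hi : i ∈ K
      · by_cases hj : j ∈ K
        · have h3 := card_both hi hj
          simp only [hi, hj, not_true, and_false, if_false, add_zero]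
          by_cases hK : K.card = ℓ
          · rw [hw (symmDiff K {i, j}) (by omega), mul_zero]
          · rw [hw K hK, zero_mul]
        · simp [hi, hj]
      · by_cases hj : j ∈ K
        · simp [hi, hj]
        · have h3 := card_none hi hj
          simp only [hi, hj, false_and, if_false, add_zero]
          by_cases hK : K.card = ℓ
          · rw [hw (symmDiff K {i, j}) (by omega), mul_zero]
          · rw [hw K hK, zero_mul]
    rw [e]
    have a1 := half_sq w i j
    have a2 := half_sq w j i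
    nlinarith [sq_nonneg ((∑ K, if i ∈ K ∧ j ∉ K then w K * w (symmDiff K {i, j}) else 0) -
        (∑ K, if j ∈ K ∧ i ∉ K then w K * w (symmDiff K {j, i}) else 0))]
  · have := mul_nonneg (p_nonneg w i) (p_nonneg w j)
    nlinarith

/-- sum over two-element sets is at most the sum over pairs -/
lemma sum_two_le (F : Finset (Fin n) → ℝ) (hF : ∀ S, 0 ≤ F S) (h0 : ∀ S, S.card ≠ 2 → F S = 0) :
    ∑ S, F S ≤ ∑ i : Fin n, ∑ j : Fin n, F {i, j} := by
  rw [← Finset.sum_product']
  have h1 : ∑ x ∈ (Finset.univ : Finset (Fin n)) ×ˢ Finset.univ, F {x.1, x.2} =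
      ∑ S : Finset (Fin n), ∑ x ∈ ((Finset.univ : Finset (Fin n)) ×ˢ
        (Finset.univ : Finset (Fin n))).filter (fun x => ({x.1, x.2} : Finset (Fin n)) = S),
        F {x.1, x.2} := by
    rw [Finset.sum_fiberwise_of_maps_to]
    intro x _
    exact Finset.mem_univ _
  rw [h1]
  refine Finset.sum_le_sum fun S _ => ?_
  by_cases hS : S.card = 2
  · obtain ⟨i, j, hij, rfl⟩ := Finset.card_eq_two.1 hS
    refine le_trans ?_ (Finset.single_le_sum (f := fun x : Fin n × Fin n => F {x.1, x.2})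
      (fun x _ => hF _) (a := (i, j)) (by simp))
    exact le_rfl
  · rw [h0 S hS]
    exact Finset.sum_nonneg fun x _ => hF _

lemma sum_g_sq {ℓ : ℕ} (w : Finset (Fin n) → ℝ) (hw : ∀ K, K.card ≠ ℓ → w K = 0) :
    ∑ S, g 2 w S ^ 2 ≤ 4 * (ℓ * ∑ K, w K ^ 2) ^ 2 := by
  refine (sum_two_le (fun S => g 2 w S ^ 2) (fun S => sq_nonneg _) ?_).trans ?_
  · intro S hS
    simp [g, hS]
  · calc ∑ i : Fin n, ∑ j : Fin n, g 2 w {i, j} ^ 2
        ≤ ∑ i : Fin n, ∑ j : Fin n, 4 * (p w i * p w j) :=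
          Finset.sum_le_sum fun i _ => Finset.sum_le_sum fun j _ => g_pair w hw i j
      _ = 4 * (ℓ * ∑ K, w K ^ 2) ^ 2 := by
          rw [← sum_p w hw, sq, Finset.sum_mul_sum, Finset.mul_sum]
          exact Finset.sum_congr rfl fun i _ => by rw [Finset.mul_sum]

lemma ext_supp {ℓ : ℕ} (v : V n ℓ → ℝ) : ∀ K, K.card ≠ ℓ → ext v K = 0 := by
  intro K hK
  simp [ext, hK]

lemma sum_g_sq_unit {ℓ : ℕ} (v : V n ℓ → ℝ) (hv : dotProduct v v = 1) :
    ∑ S, g 2 (ext v) S ^ 2 ≤ 4 * (ℓ : ℝ) ^ 2 := by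
  have h := sum_g_sq (ext v) (ext_supp v)
  rw [← dot_ext, hv, mul_one] at h
  exact h

lemma abs_g_le {ℓ : ℕ} (v : V n ℓ → ℝ) (hv : dotProduct v v = 1) (S : Finset (Fin n)) :
    |g 2 (ext v) S| ≤ 2 * ℓ := by
  have h := sum_g_sq_unit v hv
  have h1 : g 2 (ext v) S ^ 2 ≤ ∑ S, g 2 (ext v) S ^ 2 :=
    Finset.single_le_sum (f := fun S => g 2 (ext v) S ^ 2) (fun S _ => sq_nonneg _)
      (Finset.mem_univ S)
  apply abs_le_of_sq_le_sq _ (by positivity)
  nlinarith

end Pool.Agent.H311.Kik
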